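import Mathlib

/-!
# A finite-dimensional mountain pass lemma by discrete gradient descent
-/

set_option autoImplicit false

namespace Pool.Agent.HermanCaustic

open Metric Set Filter Topology
open scoped InnerProductSpace

variable {E : Type*} [NormedAddCommGroup E] [InnerProductSpace ℝ E]

/-- Descent along the gradient, when the gradient is `L`-Lipschitz on a set containing the
segment. -/
theorem descent {h : E → ℝ} {h' : E → E} (hgrad : ∀ z, HasFDerivAt h (innerSL ℝ (h' z)) z)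
    {B : Set E} {L : ℝ} (hL : ∀ z ∈ B, ∀ w ∈ B, ‖h' z - h' w‖ ≤ L * ‖z - w‖) {τ : ℝ}
    (hτ : 0 ≤ τ) (hτL : τ * L ≤ 1 / 2) (hL0 : 0 ≤ L) {z : E} (hz : z ∈ B)
    (hseg : ∀ s ∈ Icc (0:ℝ) τ, z - s • h' z ∈ B) :
    h (z - τ • h' z) ≤ h z - τ / 2 * ‖h' z‖ ^ 2 := by
  set w := h' z with hw
  set φ : ℝ → ℝ := fun s => h (z - s • w) with hφ
  have hder : ∀ s, HasDerivAt φ (-⟪h' (z - s • w), w⟫_ℝ) s := by
    intro s
    have h1 : HasDerivAt (fun s : ℝ => z - s • w) (-w) s := by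
      have := (hasDerivAt_id s).smul_const w
      simpa using this.const_sub z
    have h2 : HasDerivAt φ (innerSL ℝ (h' (z - s • w)) (-w)) s :=
      (hgrad (z - s • w)).comp_hasDerivAt s h1
    have h3 : innerSL ℝ (h' (z - s • w)) (-w) = -⟪h' (z - s • w), w⟫_ℝ := by
      rw [innerSL_apply_apply, inner_neg_right]
    rwa [h3] at h2
  have hle : ∀ s ∈ interior (Icc (0:ℝ) τ), deriv φ s ≤ -(1/2) * ‖w‖ ^ 2 := by
    intro s hs
    rw [interior_Icc] at hs
    have hs' : s ∈ Icc (0:ℝ) τ := ⟨hs.1.le, hs.2.le⟩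
    rw [(hder s).deriv]
    have h3 : ⟪h' (z - s • w), w⟫_ℝ = ‖w‖ ^ 2 + ⟪h' (z - s • w) - w, w⟫_ℝ := by
      rw [inner_sub_left, real_inner_self_eq_norm_sq]; ring
    have h4 : |⟪h' (z - s • w) - w, w⟫_ℝ| ≤ ‖h' (z - s • w) - w‖ * ‖w‖ := abs_real_inner_le_norm _ _
    have h5 : ‖h' (z - s • w) - w‖ ≤ L * (s * ‖w‖) := by
      have := hL (z - s • w) (hseg s hs') z hz
      rw [← hw] at this
      refine this.trans (le_of_eq ?_)
      rw [show z - s • w - z = -(s • w) by abel, norm_neg, norm_smul, Real.norm_eq_abs,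
        abs_of_nonneg hs.1.le]
    have h6 : L * (s * ‖w‖) ≤ 1 / 2 * ‖w‖ := by
      have : L * s ≤ 1 / 2 := by
        calc L * s ≤ L * τ := mul_le_mul_of_nonneg_left hs.2.le hL0
          _ = τ * L := mul_comm _ _
          _ ≤ 1 / 2 := hτL
      calc L * (s * ‖w‖) = (L * s) * ‖w‖ := by ring
        _ ≤ 1 / 2 * ‖w‖ := mul_le_mul_of_nonneg_right this (norm_nonneg _)
    have h7 : ‖h' (z - s • w) - w‖ * ‖w‖ ≤ 1 / 2 * ‖w‖ * ‖w‖ :=
      mul_le_mul_of_nonneg_right (h5.trans h6) (norm_nonneg _)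
    rw [h3]
    have h8 := neg_abs_le ⟪h' (z - s • w) - w, w⟫_ℝ
    nlinarith
  have hcont : ContinuousOn φ (Icc 0 τ) := fun s _ => (hder s).continuousAt.continuousWithinAt
  have hdiff : DifferentiableOn ℝ φ (interior (Icc 0 τ)) :=
    fun s _ => (hder s).differentiableAt.differentiableWithinAt
  have := (convex_Icc (0:ℝ) τ).image_sub_le_mul_sub_of_deriv_le hcont hdiff hle 0
    ⟨le_rfl, hτ⟩ τ ⟨hτ, le_rfl⟩ hτ
  simp only [hφ, zero_smul, sub_zero] at this
  nlinarith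

/-- **Mountain pass lemma.**  If `h` is larger than `c₀` on the shell `R ≤ ‖z‖ ≤ R + 1`, and
if `P` does not vanish on the part of the ball where `h ≤ c₁`, and if there are points `zp`,
`zm` of the ball with `h ≤ c₁`, with `P zp > 0` and `P zm < 0`, such that `h ≤ c₀` on the segments
joining them to the origin, then `h` has a critical point in the ball with critical value in
`[c₁, c₀]`. -/
theorem mountain_pass [FiniteDimensional ℝ E] {h : E → ℝ} {h' : E → E}
    (hgrad : ∀ z, HasFDerivAt h (innerSL ℝ (h' z)) z) {R L c₀ c₁ : ℝ} (hR : 0 ≤ R)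
    (hL0 : 0 ≤ L)
    (hL : ∀ z ∈ closedBall (0:E) (R + 1), ∀ w ∈ closedBall (0:E) (R + 1),
      ‖h' z - h' w‖ ≤ L * ‖z - w‖)
    (hshell : ∀ z : E, R ≤ ‖z‖ → ‖z‖ ≤ R + 1 → c₀ < h z) (hc : c₁ ≤ c₀)
    {P : E → ℝ} (hP : Continuous P) (hsep : ∀ z : E, ‖z‖ ≤ R → h z ≤ c₁ → P z ≠ 0)
    {zp zm : E} (hzp : ‖zp‖ ≤ R) (hzm : ‖zm‖ ≤ R) (hpp : 0 < P zp) (hpm : P zm < 0)
    (hhp : h zp ≤ c₁) (hhm : h zm ≤ c₁)
    (hsp : ∀ t ∈ Icc (0:ℝ) 1, h (t • zp) ≤ c₀) (hsm : ∀ t ∈ Icc (0:ℝ) 1, h (t • zm) ≤ c₀) :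
    ∃ z, ‖z‖ ≤ R ∧ c₁ ≤ h z ∧ h z ≤ c₀ ∧ h' z = 0 := by
  by_contra hcon
  push Not at hcon
  have hhc : Continuous h := continuous_iff_continuousAt.2 fun z => (hgrad z).continuousAt
  have hh'c : ContinuousOn h' (closedBall (0:E) (R + 1)) := by
    have : LipschitzOnWith ⟨L, hL0⟩ h' (closedBall (0:E) (R + 1)) := by
      apply LipschitzOnWith.of_dist_le_mul
      intro z hz w hw
      rw [dist_eq_norm, dist_eq_norm]
      exact hL z hz w hw
    exact this.continuousOn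
  have hsub : closedBall (0:E) R ⊆ closedBall (0:E) (R + 1) := closedBall_subset_closedBall
    (by linarith)
  -- bound on the gradient
  obtain ⟨G, hG⟩ : ∃ G, ∀ z ∈ closedBall (0:E) R, ‖h' z‖ ≤ G :=
    (isCompact_closedBall (0:E) R).exists_bound_of_continuousOn (hh'c.mono hsub)
  have hG0 : 0 ≤ G := (norm_nonneg _).trans (hG 0 (by simp [hR]))
  -- lower bound on the gradient
  obtain ⟨m, hm, hmb⟩ : ∃ m > 0, ∀ z : E, ‖z‖ ≤ R → c₁ ≤ h z → h z ≤ c₀ → m ≤ ‖h' z‖ := by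
    set S : Set E := closedBall (0:E) R ∩ {z | c₁ ≤ h z ∧ h z ≤ c₀} with hS
    have hSc : IsCompact S := by
      apply (isCompact_closedBall (0:E) R).inter_right
      exact (isClosed_le continuous_const hhc).inter (isClosed_le hhc continuous_const)
    rcases S.eq_empty_or_nonempty with he | hne
    · refine ⟨1, one_pos, fun z hz h1 h2 => ?_⟩
      have : z ∈ S := ⟨by simpa using hz, h1, h2⟩
      rw [he] at this
      exact absurd this (notMem_empty _)
    · obtain ⟨z₀, hz₀, hmin⟩ := hSc.exists_isMinOn hne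
        ((hh'c.mono (inter_subset_left.trans hsub)).norm)
      refine ⟨‖h' z₀‖, norm_pos_iff.2 (hcon z₀ (by simpa using hz₀.1) hz₀.2.1 hz₀.2.2), ?_⟩
      intro z hz h1 h2
      exact hmin (show z ∈ S from ⟨by simpa using hz, h1, h2⟩)
  -- step size
  set τ : ℝ := min (1 / (2 * (L + 1))) (1 / (G + 1)) with hτdef
  have hτpos : 0 < τ := lt_min (by positivity) (by positivity)
  have hτL : τ * L ≤ 1 / 2 := by
    have h1 : τ ≤ 1 / (2 * (L + 1)) := min_le_left _ _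
    calc τ * L ≤ 1 / (2 * (L + 1)) * L := mul_le_mul_of_nonneg_right h1 hL0
      _ ≤ 1 / 2 := by
        rw [div_mul_eq_mul_div, div_le_div_iff₀ (by positivity) (by positivity)]
        linarith
  have hτG : τ * G ≤ 1 := by
    have h1 : τ ≤ 1 / (G + 1) := min_le_right _ _
    calc τ * G ≤ 1 / (G + 1) * G := mul_le_mul_of_nonneg_right h1 hG0
      _ ≤ 1 := by
        rw [div_mul_eq_mul_div, div_le_one (by positivity)]
        linarith
  set K : Set E := {z | ‖z‖ ≤ R ∧ h z ≤ c₀} with hK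
  -- along the descent segment we stay in `K` and decrease
  have hstep : ∀ z ∈ K, ∀ s ∈ Icc (0:ℝ) τ, ‖z - s • h' z‖ ≤ R ∧
      h (z - s • h' z) ≤ h z - s / 2 * ‖h' z‖ ^ 2 := by
    intro z hz s hs
    have hzB : z ∈ closedBall (0:E) R := by simpa using hz.1
    have hseg : ∀ s' ∈ Icc (0:ℝ) s, z - s' • h' z ∈ closedBall (0:E) (R + 1) := by
      intro s' hs'
      rw [mem_closedBall_zero_iff]
      calc ‖z - s' • h' z‖ ≤ ‖z‖ + ‖s' • h' z‖ := norm_sub_le _ _
        _ ≤ R + 1 := by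
          rw [norm_smul, Real.norm_eq_abs, abs_of_nonneg hs'.1]
          have h1 : s' * ‖h' z‖ ≤ τ * G :=
            mul_le_mul (hs'.2.trans hs.2) (hG z hzB) (norm_nonneg _) hτpos.le
          linarith [hz.1]
    have hdesc := descent hgrad hL hs.1
      (le_trans (mul_le_mul_of_nonneg_right hs.2 hL0) hτL) hL0 (hsub hzB) hseg
    refine ⟨?_, hdesc⟩
    by_contra hgt
    push Not at hgt
    have h1 := hshell _ hgt.le (by
      have := hseg s ⟨hs.1, le_rfl⟩
      simpa using this)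
    have h2 : (0:ℝ) ≤ s / 2 * ‖h' z‖ ^ 2 := by
      have := hs.1
      positivity
    linarith [hz.2]
  set T : E → E := fun z => z - τ • h' z with hT
  have hTK : MapsTo T K K := by
    intro z hz
    obtain ⟨h1, h2⟩ := hstep z hz τ ⟨hτpos.le, le_rfl⟩
    have h3 : (0:ℝ) ≤ τ / 2 * ‖h' z‖ ^ 2 := by positivity
    exact ⟨h1, by linarith [hz.2]⟩
  have hTc : ContinuousOn T K := by
    have : ContinuousOn h' K := hh'c.mono fun z hz => hsub (by simpa using hz.1)
    exact continuousOn_id.sub (this.const_smul τ)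
  have hTNc : ∀ N : ℕ, ContinuousOn T^[N] K := fun N => hTc.iterate hTK N
  have hTNK : ∀ N : ℕ, MapsTo T^[N] K K := fun N => hTK.iterate N
  -- decrease
  have hdec : ∀ z ∈ K, ∀ N : ℕ, h (T^[N] z) ≤ c₁ ∨ h (T^[N] z) ≤ c₀ - N * (τ / 2 * m ^ 2) := by
    intro z hz N
    induction N with
    | zero => right; simpa using hz.2
    | succ N ih =>
      have hzN := hTNK N hz
      obtain ⟨h1, h2⟩ := hstep _ hzN τ ⟨hτpos.le, le_rfl⟩
      rw [Function.iterate_succ_apply']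
      change h (T^[N] z - τ • h' (T^[N] z)) ≤ c₁ ∨ h (T^[N] z - τ • h' (T^[N] z)) ≤ _
      have h3 : (0:ℝ) ≤ τ / 2 * ‖h' (T^[N] z)‖ ^ 2 := by positivity
      by_cases hlow : h (T^[N] z) ≤ c₁
      · left; linarith
      · right
        push Not at hlow
        have h4 := hmb _ hzN.1 hlow.le hzN.2
        have h5 : m ^ 2 ≤ ‖h' (T^[N] z)‖ ^ 2 := pow_le_pow_left₀ hm.le h4 2
        have h6 : τ / 2 * m ^ 2 ≤ τ / 2 * ‖h' (T^[N] z)‖ ^ 2 :=
          mul_le_mul_of_nonneg_left h5 (by positivity)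
        have h7 := ih.resolve_left (not_le.2 hlow)
        push_cast
        linarith
  obtain ⟨N, hN⟩ : ∃ N : ℕ, c₀ - N * (τ / 2 * m ^ 2) ≤ c₁ := by
    obtain ⟨N, hN⟩ := exists_nat_ge ((c₀ - c₁) / (τ / 2 * m ^ 2))
    refine ⟨N, ?_⟩
    rw [div_le_iff₀ (by positivity)] at hN
    linarith
  have hlowN : ∀ z ∈ K, h (T^[N] z) ≤ c₁ := fun z hz =>
    (hdec z hz N).elim id fun h1 => h1.trans hN
  -- the sign of `P` is preserved on the low part
  have hsign : ∀ z ∈ K, h z ≤ c₁ → (0 < P z → 0 < P (T z)) ∧ (P z < 0 → P (T z) < 0) := by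
    intro z hz hlow
    have hne : ∀ s ∈ Icc (0:ℝ) τ, P (z - s • h' z) ≠ 0 := by
      intro s hs
      obtain ⟨h1, h2⟩ := hstep z hz s hs
      have h3 : (0:ℝ) ≤ s / 2 * ‖h' z‖ ^ 2 := by
        have := hs.1
        positivity
      exact hsep _ h1 (by linarith)
    have hcont : ContinuousOn (fun s : ℝ => P (z - s • h' z)) (Icc 0 τ) := by
      apply Continuous.continuousOn
      fun_prop
    constructor
    · intro hpos
      by_contra hneg
      push Not at hneg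
      have hivt := intermediate_value_Icc' hτpos.le hcont
      have : (0:ℝ) ∈ Icc (P (z - τ • h' z)) (P (z - (0:ℝ) • h' z)) :=
        ⟨hneg, by simpa using hpos.le⟩
      obtain ⟨s, hs, hs0⟩ := hivt this
      exact hne s hs hs0
    · intro hneg
      by_contra hpos
      push Not at hpos
      have hivt := intermediate_value_Icc hτpos.le hcont
      have : (0:ℝ) ∈ Icc (P (z - (0:ℝ) • h' z)) (P (z - τ • h' z)) :=
        ⟨by simpa using hneg.le, hpos⟩
      obtain ⟨s, hs, hs0⟩ := hivt this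
      exact hne s hs hs0
  have hiter : ∀ z ∈ K, h z ≤ c₁ → ∀ M : ℕ, h (T^[M] z) ≤ c₁ ∧
      (0 < P z → 0 < P (T^[M] z)) ∧ (P z < 0 → P (T^[M] z) < 0) := by
    intro z hz hlow M
    induction M with
    | zero => exact ⟨by simpa using hlow, fun h => by simpa using h, fun h => by simpa using h⟩
    | succ M ih =>
      have hzM := hTNK M hz
      obtain ⟨h1, h2⟩ := hstep _ hzM τ ⟨hτpos.le, le_rfl⟩
      have h3 : (0:ℝ) ≤ τ / 2 * ‖h' (T^[M] z)‖ ^ 2 := by positivity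
      have h4 := hsign _ hzM ih.1
      rw [Function.iterate_succ_apply']
      refine ⟨?_, fun hp => h4.1 (ih.2.1 hp), fun hp => h4.2 (ih.2.2 hp)⟩
      change h (T^[M] z - τ • h' (T^[M] z)) ≤ c₁
      linarith [ih.1]
  -- the end of the argument
  have hmemseg : ∀ q : E, ‖q‖ ≤ R → (∀ t ∈ Icc (0:ℝ) 1, h (t • q) ≤ c₀) →
      ∀ t ∈ Icc (0:ℝ) 1, t • q ∈ K := by
    intro q hq hs t ht
    refine ⟨?_, hs t ht⟩
    rw [norm_smul, Real.norm_eq_abs, abs_of_nonneg ht.1]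
    calc t * ‖q‖ ≤ 1 * ‖q‖ := mul_le_mul_of_nonneg_right ht.2 (norm_nonneg _)
      _ ≤ R := by rw [one_mul]; exact hq
  have hseg_ne : ∀ q : E, ‖q‖ ≤ R → (∀ t ∈ Icc (0:ℝ) 1, h (t • q) ≤ c₀) →
      (∀ t ∈ Icc (0:ℝ) 1, P (T^[N] (t • q)) ≠ 0) ∧
      ContinuousOn (fun t : ℝ => P (T^[N] (t • q))) (Icc 0 1) := by
    intro q hq hs
    constructor
    · intro t ht
      have hmem := hmemseg q hq hs t ht
      exact hsep _ (hTNK N hmem).1 (hlowN _ hmem)
    · apply hP.comp_continuousOn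
      apply (hTNc N).comp (by fun_prop) (hmemseg q hq hs)
  have hp1 : 0 < P (T^[N] zp) := (hiter zp ⟨hzp, hhp.trans hc⟩ hhp N).2.1 hpp
  have hm1 : P (T^[N] zm) < 0 := (hiter zm ⟨hzm, hhm.trans hc⟩ hhm N).2.2 hpm
  obtain ⟨hnep, hcp⟩ := hseg_ne zp hzp hsp
  obtain ⟨hnem, hcm⟩ := hseg_ne zm hzm hsm
  have h0p : 0 < P (T^[N] 0) := by
    by_contra hneg
    push Not at hneg
    have hivt := intermediate_value_Icc (zero_le_one) hcp
    have : (0:ℝ) ∈ Icc (P (T^[N] ((0:ℝ) • zp))) (P (T^[N] ((1:ℝ) • zp))) :=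
      ⟨by simpa using hneg, by simpa using hp1.le⟩
    obtain ⟨s, hs, hs0⟩ := hivt this
    exact hnep s hs hs0
  have hivt := intermediate_value_Icc' (zero_le_one) hcm
  have : (0:ℝ) ∈ Icc (P (T^[N] ((1:ℝ) • zm))) (P (T^[N] ((0:ℝ) • zm))) :=
    ⟨by simpa using hm1.le, by simpa using h0p.le⟩
  obtain ⟨s, hs, hs0⟩ := hivt this
  exact hnem s hs hs0

end Pool.Agent.HermanCaustic
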