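import Mathlib
import Pool.Agent.HermanCaustic.MountainPass

/-!
# The model function `x (y² + w² - x²) + |b|²/2` and the persistence of its critical point
-/

set_option autoImplicit false
set_option linter.unusedSimpArgs false

namespace Pool.Agent.HermanCaustic

open Metric Set Filter Topology
open scoped InnerProductSpace

/-! ## One-variable facts -/

theorem hasDerivAt_posCube (s : ℝ) :
    HasDerivAt (fun t : ℝ => max t 0 ^ 3) (3 * max s 0 ^ 2) s := by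
  rcases lt_trichotomy s 0 with h | h | h
  · have h1 : (fun t : ℝ => max t 0 ^ 3) =ᶠ[𝓝 s] fun _ => (0:ℝ) := by
      filter_upwards [gt_mem_nhds h] with t ht
      rw [max_eq_right ht.le]; norm_num
    rw [max_eq_right h.le]
    have := (hasDerivAt_const s (0:ℝ)).congr_of_eventuallyEq h1
    simpa using this
  · subst h
    have h2 : (fun t : ℝ => max t 0 ^ 3) =O[𝓝 0] fun t => t ^ 3 := by
      apply Asymptotics.IsBigO.of_bound 1
      filter_upwards with t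
      rw [Real.norm_eq_abs, Real.norm_eq_abs, abs_pow, abs_pow, one_mul]
      apply pow_le_pow_left₀ (abs_nonneg _)
      rcases le_total t 0 with h | h
      · rw [max_eq_right h]; simp
      · rw [max_eq_left h]
    have h3 : (fun t : ℝ => t ^ 3) =o[𝓝 0] fun t : ℝ => t := by
      simpa using (Asymptotics.isLittleO_pow_pow (𝕜 := ℝ) (m := 1) (n := 3) (by norm_num))
    rw [hasDerivAt_iff_isLittleO_nhds_zero]
    simpa using h2.trans_isLittleO h3
  · have h1 : (fun t : ℝ => max t 0 ^ 3) =ᶠ[𝓝 s] fun t => t ^ 3 := by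
      filter_upwards [lt_mem_nhds h] with t ht
      rw [max_eq_left ht.le]
    rw [max_eq_left h.le]
    have := (hasDerivAt_pow 3 s).congr_of_eventuallyEq h1
    simpa using this

theorem hasDerivAt_posSq (s : ℝ) :
    HasDerivAt (fun t : ℝ => max t 0 ^ 2) (2 * max s 0) s := by
  rcases lt_trichotomy s 0 with h | h | h
  · have h1 : (fun t : ℝ => max t 0 ^ 2) =ᶠ[𝓝 s] fun _ => (0:ℝ) := by
      filter_upwards [gt_mem_nhds h] with t ht
      rw [max_eq_right ht.le]; norm_num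
    rw [max_eq_right h.le]
    have := (hasDerivAt_const s (0:ℝ)).congr_of_eventuallyEq h1
    simpa using this
  · subst h
    have h2 : (fun t : ℝ => max t 0 ^ 2) =O[𝓝 0] fun t => t ^ 2 := by
      apply Asymptotics.IsBigO.of_bound 1
      filter_upwards with t
      rw [Real.norm_eq_abs, Real.norm_eq_abs, abs_pow, abs_pow, one_mul]
      apply pow_le_pow_left₀ (abs_nonneg _)
      rcases le_total t 0 with h | h
      · rw [max_eq_right h]; simp
      · rw [max_eq_left h]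
    have h3 : (fun t : ℝ => t ^ 2) =o[𝓝 0] fun t : ℝ => t := by
      simpa using (Asymptotics.isLittleO_pow_pow (𝕜 := ℝ) (m := 1) (n := 2) (by norm_num))
    rw [hasDerivAt_iff_isLittleO_nhds_zero]
    simpa using h2.trans_isLittleO h3
  · have h1 : (fun t : ℝ => max t 0 ^ 2) =ᶠ[𝓝 s] fun t => t ^ 2 := by
      filter_upwards [lt_mem_nhds h] with t ht
      rw [max_eq_left ht.le]
    rw [max_eq_left h.le]
    have := (hasDerivAt_pow 2 s).congr_of_eventuallyEq h1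
    simpa using this

theorem contDiff_posSq : ContDiff ℝ 1 (fun t : ℝ => max t 0 ^ 2) := by
  rw [contDiff_one_iff_deriv]
  refine ⟨fun s => (hasDerivAt_posSq s).differentiableAt, ?_⟩
  have : deriv (fun t : ℝ => max t 0 ^ 2) = fun s => 2 * max s 0 :=
    funext fun s => (hasDerivAt_posSq s).deriv
  rw [this]
  fun_prop

/-- Critical values of the walled model, other than `0`, are at most `-1/4`. -/
theorem critical_value_bound {x y w : ℝ}
    (h0 : y ^ 2 + w ^ 2 - 3 * x ^ 2 + 6 * max (x ^ 2 + y ^ 2 + w ^ 2 - 1) 0 ^ 2 * x = 0)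
    (h1 : 2 * x * y + 6 * max (x ^ 2 + y ^ 2 + w ^ 2 - 1) 0 ^ 2 * y = 0)
    (h2 : 2 * x * w + 6 * max (x ^ 2 + y ^ 2 + w ^ 2 - 1) 0 ^ 2 * w = 0)
    (hne : x ^ 2 + y ^ 2 + w ^ 2 ≠ 0) :
    x * (y ^ 2 + w ^ 2 - x ^ 2) + max (x ^ 2 + y ^ 2 + w ^ 2 - 1) 0 ^ 3 ≤ -1 / 4 := by
  set u := max (x ^ 2 + y ^ 2 + w ^ 2 - 1) 0 with hu
  have hu0 : 0 ≤ u := le_max_right _ _
  by_cases hyw : y = 0 ∧ w = 0
  · obtain ⟨rfl, rfl⟩ := hyw
    have hx : x ≠ 0 := by
      rintro rfl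
      apply hne; norm_num
    have h3 : 2 * u ^ 2 = x := by
      have : x * (2 * u ^ 2 - x) = 0 := by nlinarith
      rcases mul_eq_zero.1 this with h | h
      · exact absurd h hx
      · linarith
    have hupos : 0 < u := by
      rcases hu0.lt_or_eq with h | h
      · exact h
      · rw [← h] at h3
        exact absurd (by linarith) hx
    have hu' : u = x ^ 2 + 0 ^ 2 + 0 ^ 2 - 1 := by
      rw [hu]
      apply max_eq_left
      by_contra hcon
      push Not at hcon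
      rw [hu, max_eq_right hcon.le] at hupos
      exact absurd hupos (lt_irrefl _)
    have hxpos : 0 < x := by rw [← h3]; positivity
    have hx1 : 1 < x := by nlinarith
    -- value = - x^3 + u^3, with u = x^2 - 1 and 2 u^2 = x
    have hval : x * (0 ^ 2 + 0 ^ 2 - x ^ 2) + u ^ 3 = -(x * (x ^ 2 + 1)) / 2 := by
      have : u ^ 3 = x / 2 * (x ^ 2 - 1) := by
        have h4 : u ^ 3 = u ^ 2 * u := by ring
        rw [h4]
        have h5 : u ^ 2 = x / 2 := by linarith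
        rw [h5, hu']; ring
      rw [this]; ring
    rw [hval]
    nlinarith
  · have h3 : 3 * u ^ 2 = -x := by
      by_cases hy : y = 0
      · have hw : w ≠ 0 := fun h => hyw ⟨hy, h⟩
        have : w * (x + 3 * u ^ 2) = 0 := by nlinarith
        rcases mul_eq_zero.1 this with h | h
        · exact absurd h hw
        · linarith
      · have : y * (x + 3 * u ^ 2) = 0 := by nlinarith
        rcases mul_eq_zero.1 this with h | h
        · exact absurd h hy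
        · linarith
    have h4 : y ^ 2 + w ^ 2 = 5 * x ^ 2 := by nlinarith
    have hyw' : 0 < y ^ 2 + w ^ 2 := by
      rcases not_and_or.1 hyw with h | h
      · positivity
      · positivity
    have hxne : x ≠ 0 := by
      rintro rfl
      nlinarith
    have hupos : 0 < u := by
      rcases hu0.lt_or_eq with h | h
      · exact h
      · rw [← h] at h3
        exact absurd (by linarith) hxne
    have hu' : u = x ^ 2 + y ^ 2 + w ^ 2 - 1 := by
      rw [hu]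
      apply max_eq_left
      by_contra hcon
      push Not at hcon
      rw [hu, max_eq_right hcon.le] at hupos
      exact absurd hupos (lt_irrefl _)
    have hu'' : u = 6 * x ^ 2 - 1 := by rw [hu']; linarith
    have hxneg : x < 0 := by nlinarith [pow_pos hupos 2]
    have hval : x * (y ^ 2 + w ^ 2 - x ^ 2) + u ^ 3 = x * (6 * x ^ 2 + 1) / 3 := by
      have h5 : u ^ 3 = u ^ 2 * u := by ring
      have h6 : u ^ 2 = -x / 3 := by linarith
      rw [h4, h5, h6, hu'']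
      ring
    rw [hval]
    have hx6 : 1 < 6 * x ^ 2 := by linarith
    have hx4 : x < -(2/5) := by nlinarith
    nlinarith

/-- The walled model is large far away. -/
theorem wall_lower_bound {x y w N : ℝ} (hN : 36 ≤ N) (hb : x ^ 2 + y ^ 2 + w ^ 2 ≤ N) :
    4 ≤ x * (y ^ 2 + w ^ 2 - x ^ 2) + (1 / 2) * (N - (x ^ 2 + y ^ 2 + w ^ 2)) +
      max (x ^ 2 + y ^ 2 + w ^ 2 - 1) 0 ^ 3 := by
  set ρ := x ^ 2 + y ^ 2 + w ^ 2 with hρ
  have hρ0 : 0 ≤ ρ := by positivity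
  have h1 : -(|x| * ρ) ≤ x * (y ^ 2 + w ^ 2 - x ^ 2) := by
    have h2 : |y ^ 2 + w ^ 2 - x ^ 2| ≤ ρ := by
      rw [abs_le]
      constructor
      · nlinarith [sq_nonneg y, sq_nonneg w]
      · nlinarith [sq_nonneg x]
    have h3 : |x * (y ^ 2 + w ^ 2 - x ^ 2)| ≤ |x| * ρ := by
      rw [abs_mul]
      exact mul_le_mul_of_nonneg_left h2 (abs_nonneg _)
    exact (abs_le.1 h3).1
  have hx2 : |x| ^ 2 ≤ ρ := by
    rw [sq_abs]
    nlinarith [sq_nonneg y, sq_nonneg w]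
  by_cases h4 : 4 ≤ ρ
  · have hxr : |x| ≤ ρ / 2 := by
      by_contra hcon
      push Not at hcon
      nlinarith [abs_nonneg x]
    have hm : max (ρ - 1) 0 = ρ - 1 := max_eq_left (by linarith)
    rw [hm]
    have h5 : |x| * ρ ≤ ρ / 2 * ρ := mul_le_mul_of_nonneg_right hxr hρ0
    have h6 : (0:ℝ) ≤ (1 / 2) * (N - ρ) := by linarith
    nlinarith [mul_nonneg (sub_nonneg.2 h4) (sub_nonneg.2 h4), mul_nonneg (mul_nonneg (sub_nonneg.2 h4) (sub_nonneg.2 h4)) (sub_nonneg.2 h4)]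
  · push Not at h4
    have hxr : |x| ≤ 2 := by
      by_contra hcon
      push Not at hcon
      nlinarith [abs_nonneg x]
    have h5 : |x| * ρ ≤ 2 * 4 := mul_le_mul hxr h4.le hρ0 (by norm_num)
    have h6 : (0:ℝ) ≤ max (ρ - 1) 0 ^ 3 := pow_nonneg (le_max_right _ _) 3
    linarith

variable {E : Type*} [NormedAddCommGroup E] [InnerProductSpace ℝ E]

/-- Three orthonormal vectors. -/
structure Triple (e₀ e₁ e₂ : E) : Prop where
  h00 : ⟪e₀, e₀⟫_ℝ = 1
  h11 : ⟪e₁, e₁⟫_ℝ = 1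
  h22 : ⟪e₂, e₂⟫_ℝ = 1
  h01 : ⟪e₀, e₁⟫_ℝ = 0
  h02 : ⟪e₀, e₂⟫_ℝ = 0
  h12 : ⟪e₁, e₂⟫_ℝ = 0

theorem Triple.h10 {e₀ e₁ e₂ : E} (T : Triple e₀ e₁ e₂) : ⟪e₁, e₀⟫_ℝ = 0 := by
  rw [real_inner_comm]; exact T.h01

theorem Triple.h20 {e₀ e₁ e₂ : E} (T : Triple e₀ e₁ e₂) : ⟪e₂, e₀⟫_ℝ = 0 := by
  rw [real_inner_comm]; exact T.h02

theorem Triple.h21 {e₀ e₁ e₂ : E} (T : Triple e₀ e₁ e₂) : ⟪e₂, e₁⟫_ℝ = 0 := by
  rw [real_inner_comm]; exact T.h12

/-- Orthogonal projection to the span of the triple. -/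
noncomputable def proj3 (e₀ e₁ e₂ : E) (z : E) : E :=
  ⟪e₀, z⟫_ℝ • e₀ + ⟪e₁, z⟫_ℝ • e₁ + ⟪e₂, z⟫_ℝ • e₂

/-- The quadratic vector field `grad (x (y² + w² - x²))`. -/
noncomputable def quad3 (e₀ e₁ e₂ : E) (z : E) : E :=
  (⟪e₁, z⟫_ℝ ^ 2 + ⟪e₂, z⟫_ℝ ^ 2 - 3 * ⟪e₀, z⟫_ℝ ^ 2) • e₀ +
    (2 * ⟪e₀, z⟫_ℝ * ⟪e₁, z⟫_ℝ) • e₁ + (2 * ⟪e₀, z⟫_ℝ * ⟪e₂, z⟫_ℝ) • e₂

/-- The gradient of the model. -/
noncomputable def modelGrad (e₀ e₁ e₂ : E) (z : E) : E :=
  quad3 e₀ e₁ e₂ z + (z - proj3 e₀ e₁ e₂ z)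

/-- The model function. -/
noncomputable def model (e₀ e₁ e₂ : E) (z : E) : ℝ :=
  ⟪e₀, z⟫_ℝ * (⟪e₁, z⟫_ℝ ^ 2 + ⟪e₂, z⟫_ℝ ^ 2 - ⟪e₀, z⟫_ℝ ^ 2) +
    (1 / 2) * (‖z‖ ^ 2 - (⟪e₀, z⟫_ℝ ^ 2 + ⟪e₁, z⟫_ℝ ^ 2 + ⟪e₂, z⟫_ℝ ^ 2))

/-- The squared norm of the projection to the span of the triple. -/
noncomputable def rho3 (e₀ e₁ e₂ : E) (z : E) : ℝ :=
  ⟪e₀, z⟫_ℝ ^ 2 + ⟪e₁, z⟫_ℝ ^ 2 + ⟪e₂, z⟫_ℝ ^ 2

/-- The wall function. -/
noncomputable def wall (e₀ e₁ e₂ : E) (z : E) : ℝ := max (rho3 e₀ e₁ e₂ z - 1) 0 ^ 3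

/-- The gradient of the wall function. -/
noncomputable def wallGrad (e₀ e₁ e₂ : E) (z : E) : E :=
  (6 * max (rho3 e₀ e₁ e₂ z - 1) 0 ^ 2) • proj3 e₀ e₁ e₂ z

theorem hasFDerivAt_inner (e z : E) : HasFDerivAt (fun z : E => ⟪e, z⟫_ℝ) (innerSL ℝ e) z :=
  (innerSL ℝ e).hasFDerivAt

theorem hasFDerivAt_model (e₀ e₁ e₂ z : E) :
    HasFDerivAt (model e₀ e₁ e₂) (innerSL ℝ (modelGrad e₀ e₁ e₂ z)) z := by
  have hx := hasFDerivAt_inner e₀ z
  have hy := hasFDerivAt_inner e₁ z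
  have hw := hasFDerivAt_inner e₂ z
  have hn : HasFDerivAt (fun z : E => ‖z‖ ^ 2) (2 • (innerSL ℝ z)) z :=
    (hasStrictFDerivAt_norm_sq z).hasFDerivAt
  have h := (hx.mul (((hy.pow 2).add (hw.pow 2)).sub (hx.pow 2))).add
    ((hn.sub (((hx.pow 2).add (hy.pow 2)).add (hw.pow 2))).const_mul (1 / 2 : ℝ))
  refine h.congr_fderiv ?_
  ext v
  simp only [modelGrad, quad3, proj3, innerSL_apply_apply, inner_add_left, inner_smul_left,
    inner_sub_left, smul_eq_mul, nsmul_eq_mul, RCLike.conj_to_real]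
  simp
  ring

theorem hasFDerivAt_wall (e₀ e₁ e₂ z : E) :
    HasFDerivAt (wall e₀ e₁ e₂) (innerSL ℝ (wallGrad e₀ e₁ e₂ z)) z := by
  have hx := hasFDerivAt_inner e₀ z
  have hy := hasFDerivAt_inner e₁ z
  have hw := hasFDerivAt_inner e₂ z
  have hu := (((hx.pow 2).add (hy.pow 2)).add (hw.pow 2)).sub_const 1
  have h := (hasDerivAt_posCube (rho3 e₀ e₁ e₂ z - 1)).comp_hasFDerivAt z hu
  refine h.congr_fderiv ?_
  ext v
  simp only [wallGrad, proj3, innerSL_apply_apply, inner_add_left, inner_smul_left,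
    smul_eq_mul, nsmul_eq_mul, RCLike.conj_to_real]
  simp
  ring

theorem contDiff_inner_left (e : E) {n : WithTop ℕ∞} : ContDiff ℝ n (fun z : E => ⟪e, z⟫_ℝ) :=
  (innerSL ℝ e).contDiff

theorem contDiff_proj3 (e₀ e₁ e₂ : E) {n : WithTop ℕ∞} : ContDiff ℝ n (proj3 e₀ e₁ e₂) := by
  unfold proj3
  have h0 := contDiff_inner_left e₀ (n := n)
  have h1 := contDiff_inner_left e₁ (n := n)
  have h2 := contDiff_inner_left e₂ (n := n)
  exact ((h0.smul contDiff_const).add (h1.smul contDiff_const)).add (h2.smul contDiff_const)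

theorem contDiff_quad3 (e₀ e₁ e₂ : E) {n : WithTop ℕ∞} : ContDiff ℝ n (quad3 e₀ e₁ e₂) := by
  unfold quad3
  have h0 := contDiff_inner_left e₀ (n := n)
  have h1 := contDiff_inner_left e₁ (n := n)
  have h2 := contDiff_inner_left e₂ (n := n)
  exact (((((h1.pow 2).add (h2.pow 2)).sub (contDiff_const.mul (h0.pow 2))).smul
    contDiff_const).add (((contDiff_const.mul h0).mul h1).smul contDiff_const)).add
    (((contDiff_const.mul h0).mul h2).smul contDiff_const)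

theorem contDiff_modelGrad (e₀ e₁ e₂ : E) {n : WithTop ℕ∞} :
    ContDiff ℝ n (modelGrad e₀ e₁ e₂) :=
  (contDiff_quad3 e₀ e₁ e₂).add (contDiff_id.sub (contDiff_proj3 e₀ e₁ e₂))

theorem contDiff_rho3 (e₀ e₁ e₂ : E) {n : WithTop ℕ∞} : ContDiff ℝ n (rho3 e₀ e₁ e₂) := by
  unfold rho3
  have h0 := contDiff_inner_left e₀ (n := n)
  have h1 := contDiff_inner_left e₁ (n := n)
  have h2 := contDiff_inner_left e₂ (n := n)
  exact ((h0.pow 2).add (h1.pow 2)).add (h2.pow 2)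

theorem contDiff_wallGrad (e₀ e₁ e₂ : E) : ContDiff ℝ 1 (wallGrad e₀ e₁ e₂) := by
  unfold wallGrad
  apply ContDiff.smul _ (contDiff_proj3 e₀ e₁ e₂)
  apply contDiff_const.mul
  exact contDiff_posSq.comp ((contDiff_rho3 e₀ e₁ e₂).sub contDiff_const)

variable {e₀ e₁ e₂ : E}

theorem inner_proj3 (T : Triple e₀ e₁ e₂) (z : E) : ⟪e₀, proj3 e₀ e₁ e₂ z⟫_ℝ = ⟪e₀, z⟫_ℝ ∧
    ⟪e₁, proj3 e₀ e₁ e₂ z⟫_ℝ = ⟪e₁, z⟫_ℝ ∧ ⟪e₂, proj3 e₀ e₁ e₂ z⟫_ℝ = ⟪e₂, z⟫_ℝ := by
  simp only [proj3, inner_add_right, inner_smul_right, T.h00, T.h11, T.h22, T.h01, T.h02, T.h12,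
    T.h10, T.h20, T.h21]
  refine ⟨by ring, by ring, by ring⟩

theorem norm_proj3_sq (T : Triple e₀ e₁ e₂) (z : E) :
    ‖proj3 e₀ e₁ e₂ z‖ ^ 2 = rho3 e₀ e₁ e₂ z := by
  rw [← real_inner_self_eq_norm_sq]
  conv_lhs =>
    arg 2
    rw [proj3]
  obtain ⟨h0, h1, h2⟩ := inner_proj3 T z
  rw [inner_add_left, inner_add_left, inner_smul_left, inner_smul_left, inner_smul_left,
    h0, h1, h2]
  simp only [RCLike.conj_to_real, rho3]
  ring

theorem norm_sq_eq (T : Triple e₀ e₁ e₂) (z : E) :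
    ‖z‖ ^ 2 = rho3 e₀ e₁ e₂ z + ‖z - proj3 e₀ e₁ e₂ z‖ ^ 2 := by
  have h : ⟪proj3 e₀ e₁ e₂ z, z - proj3 e₀ e₁ e₂ z⟫_ℝ = 0 := by
    obtain ⟨h0, h1, h2⟩ := inner_proj3 T z
    conv_lhs =>
      arg 2
      rw [proj3]
    rw [inner_add_left, inner_add_left, inner_smul_left, inner_smul_left, inner_smul_left,
      inner_sub_right, inner_sub_right, inner_sub_right, h0, h1, h2]
    simp
  have := norm_add_sq_real (proj3 e₀ e₁ e₂ z) (z - proj3 e₀ e₁ e₂ z)
  rw [add_sub_cancel, h, norm_proj3_sq T] at this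
  rw [this]; ring

theorem rho3_le (T : Triple e₀ e₁ e₂) (z : E) : rho3 e₀ e₁ e₂ z ≤ ‖z‖ ^ 2 := by
  rw [norm_sq_eq T z]
  nlinarith [sq_nonneg ‖z - proj3 e₀ e₁ e₂ z‖]

/-- The critical points of the walled model. -/
theorem walled_critical (T : Triple e₀ e₁ e₂) {z : E}
    (hz : modelGrad e₀ e₁ e₂ z + wallGrad e₀ e₁ e₂ z = 0) (hne : z ≠ 0) :
    model e₀ e₁ e₂ z + wall e₀ e₁ e₂ z ≤ -1 / 4 := by
  obtain ⟨p0, p1, p2⟩ := inner_proj3 T z
  have i0 : ⟪e₀, modelGrad e₀ e₁ e₂ z + wallGrad e₀ e₁ e₂ z⟫_ℝ = 0 := by rw [hz, inner_zero_right]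
  have i1 : ⟪e₁, modelGrad e₀ e₁ e₂ z + wallGrad e₀ e₁ e₂ z⟫_ℝ = 0 := by rw [hz, inner_zero_right]
  have i2 : ⟪e₂, modelGrad e₀ e₁ e₂ z + wallGrad e₀ e₁ e₂ z⟫_ℝ = 0 := by rw [hz, inner_zero_right]
  simp only [modelGrad, wallGrad, quad3, inner_add_right, inner_sub_right, inner_smul_right,
    T.h00, T.h11, T.h22, T.h01, T.h02, T.h12, T.h10, T.h20, T.h21, p0, p1, p2] at i0 i1 i2
  set x := ⟪e₀, z⟫_ℝ with hx
  set y := ⟪e₁, z⟫_ℝ with hy
  set w := ⟪e₂, z⟫_ℝ with hw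
  have hρ : rho3 e₀ e₁ e₂ z = x ^ 2 + y ^ 2 + w ^ 2 := rfl
  rw [hρ] at i0 i1 i2
  have j0 : y ^ 2 + w ^ 2 - 3 * x ^ 2 + 6 * max (x ^ 2 + y ^ 2 + w ^ 2 - 1) 0 ^ 2 * x = 0 := by
    linarith
  have j1 : 2 * x * y + 6 * max (x ^ 2 + y ^ 2 + w ^ 2 - 1) 0 ^ 2 * y = 0 := by linarith
  have j2 : 2 * x * w + 6 * max (x ^ 2 + y ^ 2 + w ^ 2 - 1) 0 ^ 2 * w = 0 := by linarith
  -- the orthogonal part vanishes
  have hb : z - proj3 e₀ e₁ e₂ z = 0 := by
    have h1 : modelGrad e₀ e₁ e₂ z + wallGrad e₀ e₁ e₂ z = z - proj3 e₀ e₁ e₂ z := by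
      have h2 : quad3 e₀ e₁ e₂ z + wallGrad e₀ e₁ e₂ z =
          (y ^ 2 + w ^ 2 - 3 * x ^ 2 + 6 * max (x ^ 2 + y ^ 2 + w ^ 2 - 1) 0 ^ 2 * x) • e₀ +
          (2 * x * y + 6 * max (x ^ 2 + y ^ 2 + w ^ 2 - 1) 0 ^ 2 * y) • e₁ +
          (2 * x * w + 6 * max (x ^ 2 + y ^ 2 + w ^ 2 - 1) 0 ^ 2 * w) • e₂ := by
        simp only [quad3, wallGrad, proj3, hρ, ← hx, ← hy, ← hw, smul_add, smul_smul]
        module
      rw [modelGrad, add_right_comm, h2, j0, j1, j2]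
      simp
    rw [← h1, hz]
  have hN : ‖z‖ ^ 2 = x ^ 2 + y ^ 2 + w ^ 2 := by
    rw [norm_sq_eq T z, hb, hρ]; simp
  have hne' : x ^ 2 + y ^ 2 + w ^ 2 ≠ 0 := by
    rw [← hN]
    exact pow_ne_zero 2 (norm_ne_zero_iff.2 hne)
  have := critical_value_bound j0 j1 j2 hne'
  rw [model, wall, hρ, ← hx, ← hy, ← hw, hN]
  linarith

theorem walled_lower (T : Triple e₀ e₁ e₂) {z : E} (hz : 6 ≤ ‖z‖) :
    4 ≤ model e₀ e₁ e₂ z + wall e₀ e₁ e₂ z := by
  have h := wall_lower_bound (x := ⟪e₀, z⟫_ℝ) (y := ⟪e₁, z⟫_ℝ) (w := ⟪e₂, z⟫_ℝ) (N := ‖z‖ ^ 2)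
    (by nlinarith) (rho3_le T z)
  exact h

theorem exists_lipschitz_closedBall [FiniteDimensional ℝ E] {F : Type*} [NormedAddCommGroup F]
    [NormedSpace ℝ F] {f : E → F} (hf : ContDiff ℝ 1 f) (R : ℝ) :
    ∃ L : ℝ, 0 ≤ L ∧ ∀ z ∈ closedBall (0:E) R, ∀ w ∈ closedBall (0:E) R,
      ‖f z - f w‖ ≤ L * ‖z - w‖ := by
  obtain ⟨C, hC⟩ := (isCompact_closedBall (0:E) R).exists_bound_of_continuousOn
    (hf.continuous_fderiv one_ne_zero).continuousOn
  refine ⟨max C 0, le_max_right _ _, fun z hz w hw => ?_⟩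
  have := Convex.norm_image_sub_le_of_norm_fderiv_le (𝕜 := ℝ) (f := f)
    (s := closedBall (0:E) R) (fun x _ => hf.differentiable one_ne_zero x)
    (fun x hx => hC x hx) (convex_closedBall (0:E) R) hw hz
  exact this.trans (mul_le_mul_of_nonneg_right (le_max_left _ _) (norm_nonneg _))

/-- **Persistence.**  Every function whose gradient is close enough to that of the model on the
ball of radius `7` has a critical point in the open unit ball. -/
theorem persistence [FiniteDimensional ℝ E] (T : Triple e₀ e₁ e₂) :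
    ∃ δ > (0:ℝ), ∀ (h : E → ℝ) (h' : E → E), (∀ z, HasFDerivAt h (innerSL ℝ (h' z)) z) →
      ContDiff ℝ 1 h' →
      (∀ z ∈ closedBall (0:E) 7, ‖h' z - modelGrad e₀ e₁ e₂ z‖ ≤ δ) →
      ∃ z, ‖z‖ < 1 ∧ h' z = 0 := by
  have hmodc : Continuous (model e₀ e₁ e₂) :=
    continuous_iff_continuousAt.2 fun z => (hasFDerivAt_model e₀ e₁ e₂ z).continuousAt
  have hwalc : Continuous (wall e₀ e₁ e₂) :=
    continuous_iff_continuousAt.2 fun z => (hasFDerivAt_wall e₀ e₁ e₂ z).continuousAt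
  have hgc : Continuous fun z => modelGrad e₀ e₁ e₂ z + wallGrad e₀ e₁ e₂ z :=
    (contDiff_modelGrad e₀ e₁ e₂ (n := 1)).continuous.add (contDiff_wallGrad e₀ e₁ e₂).continuous
  -- lower bound away from the origin at levels near zero
  obtain ⟨m, hm, hmb⟩ : ∃ m > 0, ∀ z : E, ‖z‖ ≤ 6 → 1 ≤ ‖z‖ →
      -(1/5) ≤ model e₀ e₁ e₂ z + wall e₀ e₁ e₂ z →
      m ≤ ‖modelGrad e₀ e₁ e₂ z + wallGrad e₀ e₁ e₂ z‖ := by
    set S : Set E := closedBall (0:E) 6 ∩ {z | 1 ≤ ‖z‖ ∧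
      -(1/5) ≤ model e₀ e₁ e₂ z + wall e₀ e₁ e₂ z} with hS
    have hSc : IsCompact S := by
      apply (isCompact_closedBall (0:E) 6).inter_right
      exact (isClosed_le continuous_const continuous_norm).inter
        (isClosed_le continuous_const (hmodc.add hwalc))
    rcases S.eq_empty_or_nonempty with he | hne
    · refine ⟨1, one_pos, fun z hz h1 h2 => ?_⟩
      have : z ∈ S := ⟨by simpa using hz, h1, h2⟩
      rw [he] at this
      exact absurd this (notMem_empty _)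
    · obtain ⟨z₀, hz₀, hmin⟩ := hSc.exists_isMinOn hne hgc.norm.continuousOn
      refine ⟨‖modelGrad e₀ e₁ e₂ z₀ + wallGrad e₀ e₁ e₂ z₀‖, ?_, ?_⟩
      · apply norm_pos_iff.2
        intro h0
        have hz0 : z₀ ≠ 0 := by
          rintro rfl
          have := hz₀.2.1
          simp at this
          linarith
        have := walled_critical T h0 hz0
        linarith [hz₀.2.2]
      · intro z hz h1 h2
        exact hmin (show z ∈ S from ⟨by simpa using hz, h1, h2⟩)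
  refine ⟨min (1 / 200) (m / 2), by positivity, fun h h' hgrad hh' hclose => ?_⟩
  set δ := min (1 / 200) (m / 2) with hδ
  have hδ1 : δ ≤ 1 / 200 := min_le_left _ _
  have hδ2 : δ ≤ m / 2 := min_le_right _ _
  have hδ0 : 0 < δ := by positivity
  -- normalise `h 0 = 0`
  set H : E → ℝ := fun z => (h z - h 0) + wall e₀ e₁ e₂ z with hH
  set H' : E → E := fun z => h' z + wallGrad e₀ e₁ e₂ z with hH'
  have hHgrad : ∀ z, HasFDerivAt H (innerSL ℝ (H' z)) z := by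
    intro z
    have := ((hgrad z).sub_const (h 0)).add (hasFDerivAt_wall e₀ e₁ e₂ z)
    refine this.congr_fderiv ?_
    rw [hH', map_add]
  have hmod0 : model e₀ e₁ e₂ 0 = 0 := by simp [model]
  have hHclose : ∀ z ∈ closedBall (0:E) 7, |(h z - h 0) - model e₀ e₁ e₂ z| ≤ 7 * δ := by
    intro z hz
    have hd : ∀ x ∈ closedBall (0:E) 7, HasFDerivWithinAt (fun z => h z - model e₀ e₁ e₂ z)
        (innerSL ℝ (h' x) - innerSL ℝ (modelGrad e₀ e₁ e₂ x)) (closedBall (0:E) 7) x := fun x _ =>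
      ((hgrad x).sub (hasFDerivAt_model e₀ e₁ e₂ x)).hasFDerivWithinAt
    have hb : ∀ x ∈ closedBall (0:E) 7,
        ‖innerSL ℝ (h' x) - innerSL ℝ (modelGrad e₀ e₁ e₂ x)‖ ≤ δ := by
      intro x hx
      rw [← map_sub, innerSL_apply_norm]
      exact hclose x hx
    have := (convex_closedBall (0:E) 7).norm_image_sub_le_of_norm_hasFDerivWithin_le hd hb
      (by simp : (0:E) ∈ closedBall (0:E) 7) hz
    simp only [hmod0, sub_zero] at this
    rw [Real.norm_eq_abs] at this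
    have hz' : ‖z‖ ≤ 7 := by simpa using hz
    calc |(h z - h 0) - model e₀ e₁ e₂ z| = |h z - model e₀ e₁ e₂ z - h 0| := by
          congr 1; ring
      _ ≤ δ * ‖z‖ := this
      _ ≤ 7 * δ := by nlinarith
  obtain ⟨L, hL0, hL⟩ := exists_lipschitz_closedBall (f := H')
    (hh'.add (contDiff_wallGrad e₀ e₁ e₂)) (6 + 1)
  have hwall0 : ∀ z : E, rho3 e₀ e₁ e₂ z ≤ 1 → wall e₀ e₁ e₂ z = 0 := by
    intro z hz
    rw [wall, max_eq_right (by linarith)]
    norm_num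
  have hHlow : ∀ z ∈ closedBall (0:E) 7,
      model e₀ e₁ e₂ z + wall e₀ e₁ e₂ z - 7 * δ ≤ H z := by
    intro z hz
    have := (abs_le.1 (hHclose z hz)).1
    simp only [hH]
    linarith
  have hHupp : ∀ z ∈ closedBall (0:E) 7,
      H z ≤ model e₀ e₁ e₂ z + wall e₀ e₁ e₂ z + 7 * δ := by
    intro z hz
    have := (abs_le.1 (hHclose z hz)).2
    simp only [hH]
    linarith
  -- the two valleys
  set zm : E := (-(2/5) : ℝ) • e₀ + (9/10 : ℝ) • e₁ with hzm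
  have hm0 : ⟪e₀, zm⟫_ℝ = -(2/5) := by
    rw [hzm, inner_add_right, inner_smul_right, inner_smul_right, T.h00, T.h01]; ring
  have hm1 : ⟪e₁, zm⟫_ℝ = 9/10 := by
    rw [hzm, inner_add_right, inner_smul_right, inner_smul_right, T.h11, T.h10]; ring
  have hm2 : ⟪e₂, zm⟫_ℝ = 0 := by
    simp [hzm, inner_add_right, inner_smul_right, T.h20, T.h21]
  have hmn : ‖zm‖ ^ 2 = 97/100 := by
    rw [← real_inner_self_eq_norm_sq]
    conv_lhs =>
      arg 2
      rw [hzm]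
    rw [inner_add_left, inner_smul_left, inner_smul_left, hm0, hm1]
    simp only [RCLike.conj_to_real]
    norm_num
  have hen : ‖e₀‖ ^ 2 = 1 := by rw [← real_inner_self_eq_norm_sq]; exact T.h00
  have hzm1 : ‖zm‖ ≤ 1 := by nlinarith [norm_nonneg zm]
  have hen1 : ‖e₀‖ ≤ 1 := by nlinarith [norm_nonneg e₀]
  have hmodm : ∀ t : ℝ, model e₀ e₁ e₂ (t • zm) = t ^ 3 * (-(13/50)) := by
    intro t
    simp only [model, inner_smul_right, hm0, hm1, hm2, norm_smul, Real.norm_eq_abs, mul_pow, sq_abs,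
      hmn]
    ring
  have hmodp : ∀ t : ℝ, model e₀ e₁ e₂ (t • e₀) = t ^ 3 * (-1) := by
    intro t
    simp only [model, inner_smul_right, T.h00, T.h10, T.h20, norm_smul, Real.norm_eq_abs, mul_pow,
      sq_abs, hen]
    ring
  have hball1 : ∀ q : E, ‖q‖ ≤ 1 → ∀ t ∈ Icc (0:ℝ) 1, t • q ∈ closedBall (0:E) 7 ∧
      wall e₀ e₁ e₂ (t • q) = 0 := by
    intro q hq t ht
    have h1 : ‖t • q‖ ≤ 1 := by
      rw [norm_smul, Real.norm_eq_abs, abs_of_nonneg ht.1]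
      nlinarith [ht.1, ht.2, norm_nonneg q]
    refine ⟨by rw [mem_closedBall_zero_iff]; linarith, hwall0 _ ?_⟩
    have := rho3_le T (t • q)
    nlinarith [norm_nonneg (t • q)]
  obtain ⟨z, hz6, hz1, hz2, hz0⟩ := mountain_pass (h := H) (h' := H') hHgrad (R := 6) (L := L)
    (c₀ := 1/10) (c₁ := -(1/10)) (by norm_num) hL0 hL
    (by
      intro z h1 h2
      have h3 := walled_lower T h1
      have h4 := hHlow z (by rw [mem_closedBall_zero_iff]; linarith)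
      linarith) (by norm_num)
    (P := fun z => ⟪e₀, z⟫_ℝ) (by fun_prop)
    (by
      intro z h1 h2 h3
      have h4 := hHlow z (by rw [mem_closedBall_zero_iff]; linarith)
      have h5 : 0 ≤ model e₀ e₁ e₂ z := by
        have h6 := rho3_le T z
        rw [rho3] at h6
        rw [model, h3] at *
        linarith
      have h6 : 0 ≤ wall e₀ e₁ e₂ z := pow_nonneg (le_max_right _ _) 3
      linarith)
    (zp := e₀) (zm := zm) (by linarith) (by linarith)
    (by simp only [T.h00]; norm_num) (by simp only [hm0]; norm_num)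
    (by
      have h1 := (hball1 e₀ hen1 1 (by simp))
      rw [one_smul] at h1
      have h2 := hHupp e₀ h1.1
      have h3 := hmodp 1
      rw [one_smul] at h3
      rw [h1.2, h3] at h2
      linarith)
    (by
      have h1 := (hball1 zm hzm1 1 (by simp))
      rw [one_smul] at h1
      have h2 := hHupp zm h1.1
      have h3 := hmodm 1
      rw [one_smul] at h3
      rw [h1.2, h3] at h2
      linarith)
    (by
      intro t ht
      have h1 := hball1 e₀ hen1 t ht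
      have h2 := hHupp _ h1.1
      rw [h1.2, hmodp] at h2
      have h3 : 0 ≤ t ^ 3 := pow_nonneg ht.1 3
      linarith)
    (by
      intro t ht
      have h1 := hball1 zm hzm1 t ht
      have h2 := hHupp _ h1.1
      rw [h1.2, hmodm] at h2
      have h3 : 0 ≤ t ^ 3 := pow_nonneg ht.1 3
      linarith)
  have hz7 : z ∈ closedBall (0:E) 7 := by rw [mem_closedBall_zero_iff]; linarith
  by_cases hz1' : ‖z‖ < 1
  · refine ⟨z, hz1', ?_⟩
    have hρ : rho3 e₀ e₁ e₂ z - 1 ≤ 0 := by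
      have := rho3_le T z
      nlinarith [norm_nonneg z]
    have : wallGrad e₀ e₁ e₂ z = 0 := by
      rw [wallGrad, max_eq_right hρ]
      simp
    simpa [hH', this] using hz0
  · exfalso
    push Not at hz1'
    have h1 := hmb z hz6 hz1' (by linarith [hHupp z hz7])
    have h2 : modelGrad e₀ e₁ e₂ z + wallGrad e₀ e₁ e₂ z = -(h' z - modelGrad e₀ e₁ e₂ z) := by
      have : wallGrad e₀ e₁ e₂ z = - h' z := by
        have : h' z + wallGrad e₀ e₁ e₂ z = 0 := hz0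
        exact (neg_eq_of_add_eq_zero_right this).symm
      rw [this]; abel
    rw [h2, norm_neg] at h1
    have h3 := hclose z hz7
    linarith

end Pool.Agent.HermanCaustic
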