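import Mathlib
import Pool.Agent.HermanCaustic.Model
import Pool.Agent.SmoothDegree.LocalDegree

/-!
# Local analysis at a corank three point with a two-component kernel cubic
-/

set_option autoImplicit false
set_option linter.unusedSectionVars false

namespace Pool.Agent.HermanCaustic

open Metric Set Filter Topology Asymptotics
open scoped InnerProductSpace
open Pool.Agent.SmoothDegree

variable {E : Type*} [NormedAddCommGroup E] [InnerProductSpace ℝ E]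

variable {e₀ e₁ e₂ : E}

theorem proj3_add (e₀ e₁ e₂ : E) (u v : E) :
    proj3 e₀ e₁ e₂ (u + v) = proj3 e₀ e₁ e₂ u + proj3 e₀ e₁ e₂ v := by
  simp only [proj3, inner_add_right]
  module

theorem proj3_smul (e₀ e₁ e₂ : E) (c : ℝ) (v : E) :
    proj3 e₀ e₁ e₂ (c • v) = c • proj3 e₀ e₁ e₂ v := by
  simp only [proj3, inner_smul_right]
  module

theorem proj3_sub (e₀ e₁ e₂ : E) (u v : E) :
    proj3 e₀ e₁ e₂ (u - v) = proj3 e₀ e₁ e₂ u - proj3 e₀ e₁ e₂ v := by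
  simp only [proj3, inner_sub_right]
  module

theorem proj3_neg (e₀ e₁ e₂ : E) (v : E) :
    proj3 e₀ e₁ e₂ (-v) = -proj3 e₀ e₁ e₂ v := by
  simp only [proj3, inner_neg_right]
  module

theorem proj3_proj3 (T : Triple e₀ e₁ e₂) (z : E) :
    proj3 e₀ e₁ e₂ (proj3 e₀ e₁ e₂ z) = proj3 e₀ e₁ e₂ z := by
  obtain ⟨h0, h1, h2⟩ := inner_proj3 T z
  conv_lhs => rw [proj3]
  rw [h0, h1, h2]
  rfl

theorem norm_proj3_le (T : Triple e₀ e₁ e₂) (z : E) : ‖proj3 e₀ e₁ e₂ z‖ ≤ ‖z‖ := by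
  have h := norm_proj3_sq T z
  have h2 := rho3_le T z
  rw [← h] at h2
  exact le_of_sq_le_sq h2 (norm_nonneg _)

theorem norm_sub_proj3_le (T : Triple e₀ e₁ e₂) (z : E) : ‖z - proj3 e₀ e₁ e₂ z‖ ≤ ‖z‖ := by
  have h := norm_sq_eq T z
  have h2 : ‖z - proj3 e₀ e₁ e₂ z‖ ^ 2 ≤ ‖z‖ ^ 2 := by
    rw [h]
    have : 0 ≤ rho3 e₀ e₁ e₂ z := by rw [rho3]; positivity
    linarith
  exact le_of_sq_le_sq h2 (norm_nonneg _)

theorem quad3_proj3 (T : Triple e₀ e₁ e₂) (z : E) :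
    quad3 e₀ e₁ e₂ (proj3 e₀ e₁ e₂ z) = quad3 e₀ e₁ e₂ z := by
  obtain ⟨h0, h1, h2⟩ := inner_proj3 T z
  simp only [quad3, h0, h1, h2]

theorem proj3_quad3 (T : Triple e₀ e₁ e₂) (z : E) :
    proj3 e₀ e₁ e₂ (quad3 e₀ e₁ e₂ z) = quad3 e₀ e₁ e₂ z := by
  simp only [proj3, quad3, inner_add_right, inner_smul_right,
    T.h00, T.h11, T.h22, T.h01, T.h02, T.h12, T.h10, T.h20, T.h21]
  module

/-- The quadratic field vanishes to second order exactly. -/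
theorem norm_quad3_ge (T : Triple e₀ e₁ e₂) (z : E) :
    4 / 5 * ‖proj3 e₀ e₁ e₂ z‖ ^ 2 ≤ ‖quad3 e₀ e₁ e₂ z‖ := by
  have h1 : ‖quad3 e₀ e₁ e₂ z‖ ^ 2 =
      (⟪e₁, z⟫_ℝ ^ 2 + ⟪e₂, z⟫_ℝ ^ 2 - 3 * ⟪e₀, z⟫_ℝ ^ 2) ^ 2 +
      4 * ⟪e₀, z⟫_ℝ ^ 2 * (⟪e₁, z⟫_ℝ ^ 2 + ⟪e₂, z⟫_ℝ ^ 2) := by
    rw [← real_inner_self_eq_norm_sq]
    simp only [quad3, inner_add_left, inner_add_right, inner_smul_right, inner_smul_left,
      T.h00, T.h11, T.h22, T.h01, T.h02, T.h12, T.h10, T.h20, T.h21, RCLike.conj_to_real]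
    ring
  have h2 := norm_proj3_sq T z
  rw [rho3] at h2
  have h3 : (4 / 5 * ‖proj3 e₀ e₁ e₂ z‖ ^ 2) ^ 2 ≤ ‖quad3 e₀ e₁ e₂ z‖ ^ 2 := by
    rw [h1, h2]
    set X := ⟪e₀, z⟫_ℝ ^ 2 with hX
    set q := ⟪e₁, z⟫_ℝ ^ 2 + ⟪e₂, z⟫_ℝ ^ 2 with hq
    have hX0 : 0 ≤ X := sq_nonneg _
    have hq0 : 0 ≤ q := by positivity
    have : ⟪e₀, z⟫_ℝ ^ 2 + ⟪e₁, z⟫_ℝ ^ 2 + ⟪e₂, z⟫_ℝ ^ 2 = X + q := by rw [hX, hq]; ring
    rw [this]
    nlinarith [sq_nonneg (q - 5 * X), sq_nonneg (q - X), mul_nonneg hX0 hq0, sq_nonneg X]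
  exact le_of_sq_le_sq h3 (norm_nonneg _)

/-- Little-o to a concrete bound on a ball. -/
theorem exists_ball_of_isLittleO {R : E → E} (hR : R =o[𝓝 0] fun h : E => ‖h‖ ^ 2) {ε : ℝ}
    (hε : 0 < ε) : ∃ ρ > 0, ∀ h : E, ‖h‖ ≤ ρ → ‖R h‖ ≤ ε * ‖h‖ ^ 2 := by
  have h1 := hR.def hε
  obtain ⟨ρ, hρ, hb⟩ := Metric.eventually_nhds_iff_ball.1 h1
  refine ⟨ρ / 2, by positivity, fun h hh => ?_⟩
  have := hb h (by rw [mem_ball_zero_iff]; linarith)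
  simpa [abs_of_nonneg (sq_nonneg ‖h‖)] using this

/-- Second order data of a gradient field at a corank three point with kernel spanned by the
triple, the kernel cubic being close to `x (y² + w² - x²)`. -/
structure CorankData (e₀ e₁ e₂ : E) (δ : ℝ) (F : E → E) (A : E →L[ℝ] E)
    (B : E →L[ℝ] E →L[ℝ] E) : Prop where
  taylor : (fun h => F h - F 0 - A h - (1 / 2 : ℝ) • B h h) =o[𝓝 0] fun h : E => ‖h‖ ^ 2
  ker : ∀ z, A (proj3 e₀ e₁ e₂ z) = 0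
  range : ∀ z, proj3 e₀ e₁ e₂ (A z) = 0
  hess : ∀ z, ‖A (z - proj3 e₀ e₁ e₂ z) - (z - proj3 e₀ e₁ e₂ z)‖ ≤
    δ * ‖z - proj3 e₀ e₁ e₂ z‖
  cubic : ∀ z, ‖proj3 e₀ e₁ e₂ ((1 / 2 : ℝ) • B (proj3 e₀ e₁ e₂ z) (proj3 e₀ e₁ e₂ z)) -
    quad3 e₀ e₁ e₂ z‖ ≤ δ * ‖proj3 e₀ e₁ e₂ z‖ ^ 2

theorem bilin_expand (B : E →L[ℝ] E →L[ℝ] E) (a b : E) :
    B (a + b) (a + b) = B a a + (B a b + B b a + B b b) := by
  simp only [map_add, add_apply]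
  abel

theorem norm_bilin_le (B : E →L[ℝ] E →L[ℝ] E) (a b : E) : ‖B a b‖ ≤ ‖B‖ * ‖a‖ * ‖b‖ :=
  B.le_opNorm₂ a b

/-- Near the origin the straight-line homotopy from `F - F 0` to the model gradient has no zero
except the origin. -/
theorem CorankData.nonvanishing (T : Triple e₀ e₁ e₂) {δ : ℝ} (hδ : δ ≤ 1 / 10) {F : E → E}
    {A : E →L[ℝ] E} {B : E →L[ℝ] E →L[ℝ] E} (D : CorankData e₀ e₁ e₂ δ F A B) :
    ∃ ρ > 0, ∀ z : E, z ≠ 0 → ‖z‖ ≤ ρ → ∀ t ∈ Icc (0:ℝ) 1,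
      (F z - F 0) + t • (modelGrad e₀ e₁ e₂ z - (F z - F 0)) ≠ 0 := by
  obtain ⟨ρ₁, hρ₁, hR⟩ := exists_ball_of_isLittleO D.taylor (ε := 1 / 20) (by norm_num)
  set C : ℝ := ‖B‖ + 1 with hC
  have hB0 : 0 ≤ ‖B‖ := B.opNorm_nonneg
  have hC1 : 1 ≤ C := by linarith
  refine ⟨min ρ₁ (1 / (100 * C ^ 2)), by positivity, fun z hz0 hzρ t ht hzero => ?_⟩
  have hz1 : ‖z‖ ≤ ρ₁ := hzρ.trans (min_le_left _ _)
  have hz2 : ‖z‖ ≤ 1 / (100 * C ^ 2) := hzρ.trans (min_le_right _ _)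
  have hzC : 100 * C ^ 2 * ‖z‖ ≤ 1 := by
    rw [le_div_iff₀ (by positivity)] at hz2
    linarith
  have hzpos : 0 < ‖z‖ := norm_pos_iff.2 hz0
  obtain ⟨a, ha⟩ : ∃ a, a = proj3 e₀ e₁ e₂ z := ⟨_, rfl⟩
  obtain ⟨b, hb⟩ : ∃ b, b = z - proj3 e₀ e₁ e₂ z := ⟨_, rfl⟩
  have hab : a + b = z := by rw [ha, hb]; abel
  obtain ⟨r, hr⟩ : ∃ r, r = F z - F 0 - A z - (1 / 2 : ℝ) • B z z := ⟨_, rfl⟩
  have hrb : ‖r‖ ≤ 1 / 20 * ‖z‖ ^ 2 := by rw [hr]; exact hR z hz1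
  have hFz : F z - F 0 = A b + ((1 / 2 : ℝ) • B z z + r) := by
    have h1 : A z = A b := by
      rw [hb, map_sub, D.ker, sub_zero]
    rw [hr, ← h1]; abel
  have hs1 : (1 - t) ∈ Icc (0:ℝ) 1 := ⟨by linarith [ht.2], by linarith [ht.1]⟩
  have hzero' : (1 - t) • (A b + ((1 / 2 : ℝ) • B z z + r)) + t • (quad3 e₀ e₁ e₂ z + b) = 0 := by
    rw [hFz] at hzero
    rw [← hzero, modelGrad, ← hb]
    module
  obtain ⟨Q, hQ⟩ : ∃ Q, Q = (1 / 2 : ℝ) • B z z + r := ⟨_, rfl⟩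
  rw [← hQ] at hzero' hFz
  have hQn : ‖Q‖ ≤ C * ‖z‖ ^ 2 := by
    calc ‖Q‖ ≤ ‖(1 / 2 : ℝ) • B z z‖ + ‖r‖ := by rw [hQ]; exact norm_add_le _ _
      _ ≤ 1 / 2 * (‖B‖ * ‖z‖ * ‖z‖) + 1 / 20 * ‖z‖ ^ 2 := by
          rw [norm_smul]
          have := norm_bilin_le B z z
          have h2 : ‖(1 / 2 : ℝ)‖ = 1 / 2 := by norm_num
          rw [h2]
          linarith
      _ ≤ C * ‖z‖ ^ 2 := by
          rw [hC]
          nlinarith [sq_nonneg ‖z‖]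
  -- the part orthogonal to the kernel
  have hpa : proj3 e₀ e₁ e₂ b = 0 := by
    rw [hb, proj3_sub, proj3_proj3 T, sub_self]
  have hNpart : b = (1 - t) • (b - A b) - (1 - t) • (Q - proj3 e₀ e₁ e₂ Q) := by
    have h1 : proj3 e₀ e₁ e₂ ((1 - t) • (A b + Q) + t • (quad3 e₀ e₁ e₂ z + b)) = 0 := by
      rw [hzero']
      simp [proj3]
    rw [proj3_add, proj3_smul, proj3_smul, proj3_add, proj3_add, D.range, hpa, proj3_quad3 T] at h1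
    have h2 : (1 - t) • (A b + Q) + t • (quad3 e₀ e₁ e₂ z + b) -
      ((1 - t) • (0 + proj3 e₀ e₁ e₂ Q) + t • (quad3 e₀ e₁ e₂ z + 0)) = 0 := by
      rw [hzero', h1, sub_zero]
    have h3 : b - ((1 - t) • (b - A b) - (1 - t) • (Q - proj3 e₀ e₁ e₂ Q)) = 0 := by
      rw [← h2]; module
    exact sub_eq_zero.1 h3
  have hbn : ‖b‖ ≤ 2 * C * ‖z‖ ^ 2 := by
    have h1 : ‖b - A b‖ ≤ δ * ‖b‖ := by
      rw [norm_sub_rev, hb]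
      exact D.hess z
    have h2 : ‖Q - proj3 e₀ e₁ e₂ Q‖ ≤ C * ‖z‖ ^ 2 := (norm_sub_proj3_le T Q).trans hQn
    have h3 : ‖b‖ ≤ ‖b - A b‖ + ‖Q - proj3 e₀ e₁ e₂ Q‖ := by
      calc ‖b‖ = ‖(1 - t) • (b - A b) - (1 - t) • (Q - proj3 e₀ e₁ e₂ Q)‖ := by rw [← hNpart]
        _ ≤ ‖(1 - t) • (b - A b)‖ + ‖(1 - t) • (Q - proj3 e₀ e₁ e₂ Q)‖ := norm_sub_le _ _
        _ ≤ 1 * ‖b - A b‖ + 1 * ‖Q - proj3 e₀ e₁ e₂ Q‖ := by
            rw [norm_smul, norm_smul, Real.norm_eq_abs, abs_of_nonneg hs1.1]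
            gcongr
            · exact hs1.2
            · exact hs1.2
        _ = _ := by ring
    have h4 : δ * ‖b‖ ≤ 1 / 10 * ‖b‖ := mul_le_mul_of_nonneg_right hδ (norm_nonneg _)
    nlinarith [norm_nonneg b, sq_nonneg ‖z‖]
  have hbz : ‖b‖ ≤ 1 / 2 * ‖z‖ := by
    have : 2 * C * ‖z‖ ^ 2 ≤ 1 / 2 * ‖z‖ := by
      have h1 : C ≤ C ^ 2 := by nlinarith
      have h2 : 4 * C * ‖z‖ ≤ 1 := by nlinarith
      nlinarith
    linarith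
  have hza : ‖z‖ ≤ 2 * ‖a‖ := by
    have : ‖z‖ ≤ ‖a‖ + ‖b‖ := by
      calc ‖z‖ = ‖a + b‖ := by rw [hab]
        _ ≤ _ := norm_add_le _ _
    linarith
  have hapos : 0 < ‖a‖ := by linarith
  have haz : ‖a‖ ≤ ‖z‖ := by rw [ha]; exact norm_proj3_le T z
  have hbn' : ‖b‖ ≤ 8 * C * ‖a‖ ^ 2 := by
    have : ‖z‖ ^ 2 ≤ 4 * ‖a‖ ^ 2 := by nlinarith
    have h2 : 2 * C * ‖z‖ ^ 2 ≤ 2 * C * (4 * ‖a‖ ^ 2) :=
      mul_le_mul_of_nonneg_left this (by linarith)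
    linarith
  -- the kernel part
  obtain ⟨c₁, hc₁⟩ : ∃ c₁, c₁ = proj3 e₀ e₁ e₂ ((1 / 2 : ℝ) • B a a) - quad3 e₀ e₁ e₂ z :=
    ⟨_, rfl⟩
  have hc₁n : ‖c₁‖ ≤ δ * ‖a‖ ^ 2 := by rw [hc₁, ha]; exact D.cubic z
  obtain ⟨c₂, hc₂⟩ : ∃ c₂, c₂ = (1 / 2 : ℝ) • (B a b + B b a + B b b) := ⟨_, rfl⟩
  have hApart : quad3 e₀ e₁ e₂ z = -((1 - t) • (c₁ + proj3 e₀ e₁ e₂ (c₂ + r))) := by
    have h1 : proj3 e₀ e₁ e₂ ((1 - t) • (A b + Q) + t • (quad3 e₀ e₁ e₂ z + b)) = 0 := by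
      rw [hzero']
      simp [proj3]
    rw [proj3_add, proj3_smul, proj3_smul, proj3_add, proj3_add, D.range, hpa,
      proj3_quad3 T] at h1
    have h2 : Q = (1 / 2 : ℝ) • B a a + (c₂ + r) := by
      rw [hQ, hc₂, ← hab, bilin_expand]
      module
    have h3 : proj3 e₀ e₁ e₂ Q = c₁ + quad3 e₀ e₁ e₂ z + proj3 e₀ e₁ e₂ (c₂ + r) := by
      rw [h2, proj3_add, hc₁]; abel
    rw [h3] at h1
    have h4 : quad3 e₀ e₁ e₂ z + ((1 - t) • (c₁ + proj3 e₀ e₁ e₂ (c₂ + r))) = 0 := by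
      rw [← h1]; module
    exact eq_neg_of_add_eq_zero_left h4
  have hc₂n : ‖c₂‖ ≤ C * (‖a‖ * ‖b‖ + ‖b‖ ^ 2) := by
    rw [hc₂, norm_smul]
    have h2 : ‖(1 / 2 : ℝ)‖ = 1 / 2 := by norm_num
    rw [h2]
    have h3 : ‖B a b + B b a + B b b‖ ≤ ‖B a b‖ + ‖B b a‖ + ‖B b b‖ := norm_add₃_le
    have h4 := norm_bilin_le B a b
    have h5 := norm_bilin_le B b a
    have h6 := norm_bilin_le B b b
    have h7 : 0 ≤ ‖a‖ * ‖b‖ := by positivity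
    have h8 : 0 ≤ ‖b‖ ^ 2 := by positivity
    nlinarith [mul_nonneg hB0 h8]
  have hfinal : 4 / 5 * ‖a‖ ^ 2 ≤ δ * ‖a‖ ^ 2 + (C * (‖a‖ * ‖b‖ + ‖b‖ ^ 2) + 1 / 20 * ‖z‖ ^ 2) := by
    calc 4 / 5 * ‖a‖ ^ 2 ≤ ‖quad3 e₀ e₁ e₂ z‖ := by rw [ha]; exact norm_quad3_ge T z
      _ = (1 - t) * ‖c₁ + proj3 e₀ e₁ e₂ (c₂ + r)‖ := by
          rw [hApart, norm_neg, norm_smul, Real.norm_eq_abs, abs_of_nonneg hs1.1]
      _ ≤ 1 * ‖c₁ + proj3 e₀ e₁ e₂ (c₂ + r)‖ :=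
          mul_le_mul_of_nonneg_right hs1.2 (norm_nonneg _)
      _ ≤ ‖c₁‖ + ‖c₂ + r‖ := by
          rw [one_mul]
          exact (norm_add_le _ _).trans (add_le_add le_rfl (norm_proj3_le T _))
      _ ≤ δ * ‖a‖ ^ 2 + (‖c₂‖ + ‖r‖) := add_le_add hc₁n (norm_add_le _ _)
      _ ≤ _ := by linarith
  -- contradiction
  have hb1 : ‖b‖ ≤ 1 / 10 * ‖a‖ := by
    have h1 : C ≤ C ^ 2 := by nlinarith
    have h2 : 80 * C * ‖a‖ ≤ 1 := by nlinarith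
    nlinarith
  have hCb : C * ‖b‖ ≤ 8 / 100 * ‖a‖ := by
    have h1 : C * ‖b‖ ≤ C * (8 * C * ‖a‖ ^ 2) := mul_le_mul_of_nonneg_left hbn' (by linarith)
    have h2 : 100 * C ^ 2 * ‖a‖ ≤ 1 := by
      have : 100 * C ^ 2 * ‖a‖ ≤ 100 * C ^ 2 * ‖z‖ := mul_le_mul_of_nonneg_left haz (by positivity)
      linarith
    nlinarith
  have hCt : C * (‖a‖ * ‖b‖ + ‖b‖ ^ 2) ≤ 2 / 10 * ‖a‖ ^ 2 := by
    have : C * (‖a‖ * ‖b‖ + ‖b‖ ^ 2) = (C * ‖b‖) * (‖a‖ + ‖b‖) := by ring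
    rw [this]
    have h1 : ‖a‖ + ‖b‖ ≤ 2 * ‖a‖ := by linarith
    calc (C * ‖b‖) * (‖a‖ + ‖b‖) ≤ (8 / 100 * ‖a‖) * (2 * ‖a‖) :=
          mul_le_mul hCb h1 (by positivity) (by positivity)
      _ ≤ 2 / 10 * ‖a‖ ^ 2 := by nlinarith
  have hzz : ‖z‖ ^ 2 ≤ 4 * ‖a‖ ^ 2 := by nlinarith
  have hδa : δ * ‖a‖ ^ 2 ≤ 1 / 10 * ‖a‖ ^ 2 := mul_le_mul_of_nonneg_right hδ (by positivity)
  nlinarith [pow_pos hapos 2]

/-- The orthogonal projection as a continuous linear map. -/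
noncomputable def projL (e₀ e₁ e₂ : E) : E →L[ℝ] E :=
  (innerSL ℝ e₀).smulRight e₀ + (innerSL ℝ e₁).smulRight e₁ + (innerSL ℝ e₂).smulRight e₂

theorem projL_apply (e₀ e₁ e₂ z : E) : projL e₀ e₁ e₂ z = proj3 e₀ e₁ e₂ z := by
  simp [projL, proj3]

theorem inner_proj3_symm (e₀ e₁ e₂ u v : E) :
    ⟪u, proj3 e₀ e₁ e₂ v⟫_ℝ = ⟪proj3 e₀ e₁ e₂ u, v⟫_ℝ := by
  simp only [proj3, inner_add_right, inner_add_left, inner_smul_right, inner_smul_left,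
    RCLike.conj_to_real]
  rw [real_inner_comm e₀ u, real_inner_comm e₁ u, real_inner_comm e₂ u]
  ring

/-- The anisotropic scaling. -/
noncomputable def scal (e₀ e₁ e₂ : E) (s : ℝ) : E →L[ℝ] E :=
  s ^ 2 • projL e₀ e₁ e₂ + s ^ 3 • (1 - projL e₀ e₁ e₂)

theorem scal_apply (e₀ e₁ e₂ : E) (s : ℝ) (z : E) : scal e₀ e₁ e₂ s z =
    s ^ 2 • proj3 e₀ e₁ e₂ z + s ^ 3 • (z - proj3 e₀ e₁ e₂ z) := by
  simp [scal, projL_apply]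

theorem inner_scal_symm (e₀ e₁ e₂ : E) (s : ℝ) (u v : E) :
    ⟪u, scal e₀ e₁ e₂ s v⟫_ℝ = ⟪scal e₀ e₁ e₂ s u, v⟫_ℝ := by
  simp only [scal_apply, inner_add_right, inner_add_left, inner_smul_right, inner_smul_left,
    inner_sub_left, inner_sub_right, inner_proj3_symm, RCLike.conj_to_real]

theorem norm_scal_le (T : Triple e₀ e₁ e₂) {s : ℝ} (hs0 : 0 ≤ s) (hs1 : s ≤ 1) (z : E) :
    ‖scal e₀ e₁ e₂ s z‖ ≤ 2 * s ^ 2 * ‖z‖ := by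
  rw [scal_apply]
  have h1 := norm_proj3_le T z
  have h2 := norm_sub_proj3_le T z
  have h3 : s ^ 3 ≤ s ^ 2 := pow_le_pow_of_le_one hs0 hs1 (by norm_num)
  calc ‖s ^ 2 • proj3 e₀ e₁ e₂ z + s ^ 3 • (z - proj3 e₀ e₁ e₂ z)‖
      ≤ ‖s ^ 2 • proj3 e₀ e₁ e₂ z‖ + ‖s ^ 3 • (z - proj3 e₀ e₁ e₂ z)‖ := norm_add_le _ _
    _ = s ^ 2 * ‖proj3 e₀ e₁ e₂ z‖ + s ^ 3 * ‖z - proj3 e₀ e₁ e₂ z‖ := by
        rw [norm_smul, norm_smul, Real.norm_eq_abs, Real.norm_eq_abs,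
          abs_of_nonneg (pow_nonneg hs0 2), abs_of_nonneg (pow_nonneg hs0 3)]
    _ ≤ s ^ 2 * ‖z‖ + s ^ 2 * ‖z‖ :=
        add_le_add (mul_le_mul_of_nonneg_left h1 (pow_nonneg hs0 2))
          (mul_le_mul h3 h2 (norm_nonneg _) (pow_nonneg hs0 2))
    _ = 2 * s ^ 2 * ‖z‖ := by ring

/-- **Local surjectivity.** -/
theorem CorankData.locally_onto [FiniteDimensional ℝ E] (T : Triple e₀ e₁ e₂) :
    ∃ δ₀ > (0:ℝ), ∀ {δ : ℝ}, δ ≤ δ₀ → ∀ {f : E → ℝ} {F : E → E} {A : E →L[ℝ] E}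
      {B : E →L[ℝ] E →L[ℝ] E}, (∀ z, HasFDerivAt f (innerSL ℝ (F z)) z) → ContDiff ℝ 1 F →
      CorankData e₀ e₁ e₂ δ F A B → ∀ U ∈ 𝓝 (0:E), F '' U ∈ 𝓝 (F 0) := by
  obtain ⟨δR, hδR, hpers⟩ := persistence T
  refine ⟨δR / 224, by positivity, fun {δ} hδ {f F A B} hgrad hF D U hU => ?_⟩
  obtain ⟨rU, hrU, hball⟩ := Metric.mem_nhds_iff.1 hU
  set ε : ℝ := δR / 1568 with hε
  obtain ⟨ρ, hρ, hR⟩ := exists_ball_of_isLittleO D.taylor (ε := ε) (by positivity)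
  set C : ℝ := ‖B‖ + 1 with hC
  have hB0 : 0 ≤ ‖B‖ := B.opNorm_nonneg
  have hC1 : 1 ≤ C := by linarith
  -- choice of the scale
  obtain ⟨s, hs0, hs1, hsρ, hsr, hsC⟩ : ∃ s : ℝ, 0 < s ∧ s ≤ 1 ∧ 14 * s ≤ ρ ∧ 2 * s < rU ∧
      688 * C * s ≤ δR := by
    refine ⟨min (min 1 (ρ / 14)) (min (rU / 4) (δR / (688 * C))), by positivity,
      (min_le_left _ _).trans (min_le_left _ _), ?_, ?_, ?_⟩
    · have : min (min 1 (ρ / 14)) (min (rU / 4) (δR / (688 * C))) ≤ ρ / 14 :=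
        (min_le_left _ _).trans (min_le_right _ _)
      linarith
    · have : min (min 1 (ρ / 14)) (min (rU / 4) (δR / (688 * C))) ≤ rU / 4 :=
        (min_le_right _ _).trans (min_le_left _ _)
      linarith
    · have : min (min 1 (ρ / 14)) (min (rU / 4) (δR / (688 * C))) ≤ δR / (688 * C) :=
        (min_le_right _ _).trans (min_le_right _ _)
      rw [le_div_iff₀ (by positivity)] at this
      linarith
  have hss : s ^ 2 ≤ s := by nlinarith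
  apply Filter.mem_of_superset (ball_mem_nhds (F 0) (show 0 < δR / 8 * s ^ 4 by positivity))
  intro y hy
  set η : E := y - F 0 with hη
  have hηn : ‖η‖ ≤ δR / 8 * s ^ 4 := by
    rw [hη, ← dist_eq_norm]; exact (mem_ball.1 hy).le
  set Λ := scal e₀ e₁ e₂ s with hΛ
  set h : E → ℝ := fun z => (s ^ 6)⁻¹ * (f (Λ z) - ⟪y, Λ z⟫_ℝ) with hh
  set h' : E → E := fun z => (s ^ 6)⁻¹ • Λ (F (Λ z) - y) with hh'
  have hs4 : (s ^ 6)⁻¹ * s ^ 2 = (s ^ 4)⁻¹ := by field_simp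
  have hs3 : (s ^ 6)⁻¹ * s ^ 3 = (s ^ 3)⁻¹ := by field_simp
  have hh'2 : ∀ z, h' z = (s ^ 4)⁻¹ • proj3 e₀ e₁ e₂ (F (Λ z) - y) +
      (s ^ 3)⁻¹ • ((F (Λ z) - y) - proj3 e₀ e₁ e₂ (F (Λ z) - y)) := by
    intro z
    simp only [hh']
    rw [hΛ, scal_apply, ← hΛ, smul_add, smul_smul, smul_smul, hs4, hs3]
  have hhgrad : ∀ z, HasFDerivAt h (innerSL ℝ (h' z)) z := by
    intro z
    have h1 : HasFDerivAt (fun z => f (Λ z)) ((innerSL ℝ (F (Λ z))).comp Λ) z :=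
      (hgrad (Λ z)).comp z Λ.hasFDerivAt
    have h2 : HasFDerivAt (fun z => ⟪y, Λ z⟫_ℝ) ((innerSL ℝ y).comp Λ) z :=
      ((innerSL ℝ y).hasFDerivAt (x := Λ z)).comp z Λ.hasFDerivAt
    have h3 := (h1.sub h2).const_mul (s ^ 6)⁻¹
    refine h3.congr_fderiv ?_
    ext v
    simp only [hh', innerSL_apply_apply, inner_smul_left, RCLike.conj_to_real]
    rw [← inner_scal_symm, ← hΛ]
    simp [inner_sub_left]
  have hh'c : ContDiff ℝ 1 h' := by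
    simp only [hh']
    apply ContDiff.const_smul
    exact Λ.contDiff.comp ((hF.comp Λ.contDiff).sub contDiff_const)
  obtain ⟨z, hz1, hz0⟩ := hpers h h' hhgrad hh'c (by
    intro z hz
    have hz7 : ‖z‖ ≤ 7 := by simpa using hz
    obtain ⟨a, ha⟩ : ∃ a, a = proj3 e₀ e₁ e₂ z := ⟨_, rfl⟩
    obtain ⟨b, hb⟩ : ∃ b, b = z - proj3 e₀ e₁ e₂ z := ⟨_, rfl⟩
    have han : ‖a‖ ≤ 7 := by rw [ha]; exact (norm_proj3_le T z).trans hz7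
    have hbn : ‖b‖ ≤ 7 := by rw [hb]; exact (norm_sub_proj3_le T z).trans hz7
    have hΛz : Λ z = s ^ 2 • (a + s • b) := by
      rw [hΛ, scal_apply, ← hb, ← ha]; module
    have hΛn : ‖Λ z‖ ≤ 14 * s ^ 2 := by
      have := norm_scal_le T hs0.le hs1 z
      rw [← hΛ] at this
      nlinarith [sq_nonneg s]
    have hΛρ : ‖Λ z‖ ≤ ρ := by linarith
    obtain ⟨r, hr⟩ : ∃ r, r = F (Λ z) - F 0 - A (Λ z) - (1 / 2 : ℝ) • B (Λ z) (Λ z) := ⟨_, rfl⟩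
    have hrn : ‖r‖ ≤ ε * (196 * s ^ 4) := by
      rw [hr]
      refine (hR _ hΛρ).trans ?_
      apply mul_le_mul_of_nonneg_left _ (by positivity)
      calc ‖Λ z‖ ^ 2 ≤ (14 * s ^ 2) ^ 2 := pow_le_pow_left₀ (norm_nonneg _) hΛn 2
        _ = 196 * s ^ 4 := by ring
    have hAb : A (Λ z) = s ^ 3 • A b := by
      rw [hΛ, scal_apply, map_add, map_smul, map_smul, D.ker, smul_zero, zero_add, ← hb]
    obtain ⟨q, hq⟩ : ∃ q, q = (1 / 2 : ℝ) • B (Λ z) (Λ z) + (r - η) := ⟨_, rfl⟩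
    have hG : F (Λ z) - y = s ^ 3 • A b + q := by
      rw [hq, hr, hAb, hη]; abel
    obtain ⟨c, hc⟩ : ∃ c, c = (1 / 2 : ℝ) • (s • (B a b + B b a) + s ^ 2 • B b b) := ⟨_, rfl⟩
    have hBB : (1 / 2 : ℝ) • B (Λ z) (Λ z) = s ^ 4 • ((1 / 2 : ℝ) • B a a + c) := by
      rw [hΛz, hc]
      simp only [map_smul, map_add, add_apply, smul_apply]
      module
    have hBBn : ‖(1 / 2 : ℝ) • B (Λ z) (Λ z)‖ ≤ 98 * ‖B‖ * s ^ 4 := by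
      rw [norm_smul]
      have h2 : ‖(1 / 2 : ℝ)‖ = 1 / 2 := by norm_num
      rw [h2]
      have h3 := norm_bilin_le B (Λ z) (Λ z)
      have h4 : ‖Λ z‖ * ‖Λ z‖ ≤ (14 * s ^ 2) * (14 * s ^ 2) :=
        mul_le_mul hΛn hΛn (norm_nonneg _) (by positivity)
      have h5 : ‖B‖ * (‖Λ z‖ * ‖Λ z‖) ≤ ‖B‖ * ((14 * s ^ 2) * (14 * s ^ 2)) :=
        mul_le_mul_of_nonneg_left h4 hB0
      nlinarith
    have hcn : ‖c‖ ≤ 74 * ‖B‖ * s := by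
      rw [hc, norm_smul]
      have h2 : ‖(1 / 2 : ℝ)‖ = 1 / 2 := by norm_num
      rw [h2]
      have h3 : ‖s • (B a b + B b a) + s ^ 2 • B b b‖ ≤ s * (‖B a b‖ + ‖B b a‖) + s * ‖B b b‖ := by
        calc ‖s • (B a b + B b a) + s ^ 2 • B b b‖ ≤ ‖s • (B a b + B b a)‖ + ‖s ^ 2 • B b b‖ :=
              norm_add_le _ _
          _ ≤ s * (‖B a b‖ + ‖B b a‖) + s * ‖B b b‖ := by
              rw [norm_smul, norm_smul, Real.norm_eq_abs, Real.norm_eq_abs,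
                abs_of_pos hs0, abs_of_nonneg (sq_nonneg s)]
              exact add_le_add (mul_le_mul_of_nonneg_left (norm_add_le _ _) hs0.le)
                (mul_le_mul_of_nonneg_right hss (norm_nonneg _))
      have hbd : ∀ u v : E, ‖u‖ ≤ 7 → ‖v‖ ≤ 7 → ‖B u v‖ ≤ 49 * ‖B‖ := by
        intro u v hu hv
        have h4 := norm_bilin_le B u v
        have h5 : ‖u‖ * ‖v‖ ≤ 7 * 7 := mul_le_mul hu hv (norm_nonneg _) (by norm_num)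
        have h6 : ‖B‖ * (‖u‖ * ‖v‖) ≤ ‖B‖ * (7 * 7) := mul_le_mul_of_nonneg_left h5 hB0
        linarith
      have h4 := hbd a b han hbn
      have h5 := hbd b a hbn han
      have h6 := hbd b b hbn hbn
      have h7 : s * (‖B a b‖ + ‖B b a‖) + s * ‖B b b‖ ≤ s * (49 * ‖B‖ + 49 * ‖B‖) +
          s * (49 * ‖B‖) :=
        add_le_add (mul_le_mul_of_nonneg_left (add_le_add h4 h5) hs0.le)
          (mul_le_mul_of_nonneg_left h6 hs0.le)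
      nlinarith [mul_nonneg hB0 hs0.le]
    -- decompose the difference
    have hdiff : h' z - modelGrad e₀ e₁ e₂ z =
        (proj3 e₀ e₁ e₂ ((1 / 2 : ℝ) • B a a) - quad3 e₀ e₁ e₂ z) + proj3 e₀ e₁ e₂ c +
        (s ^ 4)⁻¹ • proj3 e₀ e₁ e₂ (r - η) + (A b - b) +
        (s ^ 3)⁻¹ • (q - proj3 e₀ e₁ e₂ q) := by
      rw [hh'2 z, hG, modelGrad, ← hb]
      have e1 : proj3 e₀ e₁ e₂ (s ^ 3 • A b + q) = s ^ 4 • (proj3 e₀ e₁ e₂ ((1 / 2 : ℝ) • B a a) +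
          proj3 e₀ e₁ e₂ c) + proj3 e₀ e₁ e₂ (r - η) := by
        rw [proj3_add, proj3_smul, D.range, smul_zero, zero_add, hq, proj3_add, hBB, proj3_smul,
          proj3_add]
      have e2 : s ^ 3 • A b + q - proj3 e₀ e₁ e₂ (s ^ 3 • A b + q) =
          s ^ 3 • A b + (q - proj3 e₀ e₁ e₂ q) := by
        rw [proj3_add, proj3_smul, D.range, smul_zero, zero_add]; abel
      rw [e2, e1, smul_add, smul_smul, inv_mul_cancel₀ (by positivity : s ^ 4 ≠ 0), one_smul,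
        smul_add, smul_smul, inv_mul_cancel₀ (by positivity : s ^ 3 ≠ 0), one_smul]
      abel
    have hrη : ‖r - η‖ ≤ (δR / 4) * s ^ 4 := by
      calc ‖r - η‖ ≤ ‖r‖ + ‖η‖ := norm_sub_le _ _
        _ ≤ ε * (196 * s ^ 4) + δR / 8 * s ^ 4 := add_le_add hrn hηn
        _ = (δR / 4) * s ^ 4 := by rw [hε]; ring
    have t1 : ‖proj3 e₀ e₁ e₂ ((1 / 2 : ℝ) • B a a) - quad3 e₀ e₁ e₂ z‖ ≤ δR * 49 / 224 := by
      have h1 := D.cubic z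
      rw [← ha] at h1
      refine h1.trans ?_
      have h2 : δ * ‖a‖ ^ 2 ≤ δR / 224 * ‖a‖ ^ 2 := mul_le_mul_of_nonneg_right hδ (sq_nonneg _)
      have h3 : ‖a‖ ^ 2 ≤ 49 := by nlinarith [norm_nonneg a]
      nlinarith
    have t2 : ‖proj3 e₀ e₁ e₂ c‖ ≤ 74 * ‖B‖ * s := (norm_proj3_le T c).trans hcn
    have t3 : ‖(s ^ 4)⁻¹ • proj3 e₀ e₁ e₂ (r - η)‖ ≤ δR / 4 := by
      rw [norm_smul, norm_inv, Real.norm_eq_abs, abs_of_pos (by positivity : 0 < s ^ 4),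
        inv_mul_le_iff₀ (by positivity)]
      refine (norm_proj3_le T _).trans (hrη.trans (le_of_eq (by ring)))
    have t4 : ‖A b - b‖ ≤ δR * 7 / 224 := by
      have h1 := D.hess z
      rw [← hb] at h1
      refine h1.trans ?_
      have h2 : δ * ‖b‖ ≤ δR / 224 * ‖b‖ := mul_le_mul_of_nonneg_right hδ (norm_nonneg _)
      nlinarith
    have t5 : ‖(s ^ 3)⁻¹ • (q - proj3 e₀ e₁ e₂ q)‖ ≤ (98 * ‖B‖ + δR / 4) * s := by
      rw [norm_smul, norm_inv, Real.norm_eq_abs, abs_of_pos (by positivity : 0 < s ^ 3),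
        inv_mul_le_iff₀ (by positivity)]
      refine (norm_sub_proj3_le T q).trans ?_
      calc ‖q‖ ≤ ‖(1 / 2 : ℝ) • B (Λ z) (Λ z)‖ + ‖r - η‖ := by rw [hq]; exact norm_add_le _ _
        _ ≤ 98 * ‖B‖ * s ^ 4 + (δR / 4) * s ^ 4 := add_le_add hBBn hrη
        _ = s ^ 3 * ((98 * ‖B‖ + δR / 4) * s) := by ring
    have hBs : ‖B‖ * s ≤ δR / 688 := by
      have : ‖B‖ * s ≤ C * s := mul_le_mul_of_nonneg_right (by linarith) hs0.le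
      linarith
    have hδs : δR / 4 * s ≤ δR / 4 := by nlinarith
    rw [hdiff]
    calc _ ≤ ‖proj3 e₀ e₁ e₂ ((1 / 2 : ℝ) • B a a) - quad3 e₀ e₁ e₂ z‖ + ‖proj3 e₀ e₁ e₂ c‖ +
          ‖(s ^ 4)⁻¹ • proj3 e₀ e₁ e₂ (r - η)‖ + ‖A b - b‖ +
          ‖(s ^ 3)⁻¹ • (q - proj3 e₀ e₁ e₂ q)‖ := by
            refine (norm_add_le _ _).trans (add_le_add ?_ le_rfl)
            refine (norm_add_le _ _).trans (add_le_add ?_ le_rfl)
            exact norm_add₃_le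
      _ ≤ δR := by nlinarith)
  -- conclude
  have hG0 : F (Λ z) - y = 0 := by
    have h1 : Λ (F (Λ z) - y) = 0 := by
      have : (s ^ 6)⁻¹ • Λ (F (Λ z) - y) = 0 := hz0
      exact (smul_eq_zero.1 this).resolve_left (by positivity)
    obtain ⟨G, hG⟩ : ∃ G, G = F (Λ z) - y := ⟨_, rfl⟩
    rw [← hG] at h1 ⊢
    rw [hΛ, scal_apply] at h1
    have h2 : proj3 e₀ e₁ e₂ G = 0 := by
      have h3 : proj3 e₀ e₁ e₂ (s ^ 2 • proj3 e₀ e₁ e₂ G + s ^ 3 • (G - proj3 e₀ e₁ e₂ G)) = 0 := by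
        rw [h1]; simp [proj3]
      rw [proj3_add, proj3_smul, proj3_smul, proj3_sub, proj3_proj3 T, sub_self, smul_zero,
        add_zero] at h3
      exact (smul_eq_zero.1 h3).resolve_left (by positivity)
    rw [h2, smul_zero, zero_add, sub_zero] at h1
    exact (smul_eq_zero.1 h1).resolve_left (by positivity)
  refine ⟨Λ z, hball ?_, sub_eq_zero.1 hG0⟩
  rw [mem_ball_zero_iff]
  have h1 := norm_scal_le T hs0.le hs1 z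
  rw [← hΛ] at h1
  have h2 : 2 * s ^ 2 * ‖z‖ ≤ 2 * s ^ 2 * 1 := mul_le_mul_of_nonneg_left hz1.le (by positivity)
  linarith

end Pool.Agent.HermanCaustic
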