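import Mathlib
import Pool.Agent.HermanCaustic.LocalLemma

/-!
# The base function with a transversal corank three point at the origin
-/

set_option autoImplicit false
set_option linter.unusedSectionVars false

namespace Pool.Agent.HermanCaustic

open Metric Set Filter Topology Asymptotics
open scoped InnerProductSpace ContDiff

variable {E : Type*} [NormedAddCommGroup E] [InnerProductSpace ℝ E] (e : Fin 6 → E)

/-- Elementary bilinear maps. -/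
noncomputable def bl (i j k : Fin 6) : E →L[ℝ] E →L[ℝ] E :=
  (innerSL ℝ (e i)).smulRight ((innerSL ℝ (e j)).smulRight (e k))

theorem bl_apply (i j k : Fin 6) (z v : E) :
    bl e i j k z v = (⟪e i, z⟫_ℝ * ⟪e j, v⟫_ℝ) • e k := by
  simp [bl, smul_smul]

/-- The third derivative of the base function, as a symmetric bilinear map with values in `E`. -/
noncomputable def Bil : E →L[ℝ] E →L[ℝ] E :=
  (2:ℝ) • bl e 1 1 0 + (2:ℝ) • bl e 2 2 0 - (6:ℝ) • bl e 0 0 0 +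
  ((2:ℝ) • (bl e 0 1 1 + bl e 1 0 1) + (bl e 3 1 1 + bl e 1 3 1) + (bl e 4 2 1 + bl e 2 4 1)) +
  ((2:ℝ) • (bl e 0 2 2 + bl e 2 0 2) + (bl e 4 1 2 + bl e 1 4 2) + (bl e 5 2 2 + bl e 2 5 2)) +
  bl e 1 1 3 + (bl e 1 2 4 + bl e 2 1 4) + bl e 2 2 5

theorem Bil_apply (z v : E) : Bil e z v =
    (2 * ⟪e 1, z⟫_ℝ * ⟪e 1, v⟫_ℝ + 2 * ⟪e 2, z⟫_ℝ * ⟪e 2, v⟫_ℝ
      - 6 * ⟪e 0, z⟫_ℝ * ⟪e 0, v⟫_ℝ) • e 0 +
    (2 * ⟪e 0, z⟫_ℝ * ⟪e 1, v⟫_ℝ + 2 * ⟪e 1, z⟫_ℝ * ⟪e 0, v⟫_ℝ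
      + ⟪e 3, z⟫_ℝ * ⟪e 1, v⟫_ℝ + ⟪e 1, z⟫_ℝ * ⟪e 3, v⟫_ℝ
      + ⟪e 4, z⟫_ℝ * ⟪e 2, v⟫_ℝ + ⟪e 2, z⟫_ℝ * ⟪e 4, v⟫_ℝ) • e 1 +
    (2 * ⟪e 0, z⟫_ℝ * ⟪e 2, v⟫_ℝ + 2 * ⟪e 2, z⟫_ℝ * ⟪e 0, v⟫_ℝ
      + ⟪e 4, z⟫_ℝ * ⟪e 1, v⟫_ℝ + ⟪e 1, z⟫_ℝ * ⟪e 4, v⟫_ℝ
      + ⟪e 5, z⟫_ℝ * ⟪e 2, v⟫_ℝ + ⟪e 2, z⟫_ℝ * ⟪e 5, v⟫_ℝ) • e 2 +
    (⟪e 1, z⟫_ℝ * ⟪e 1, v⟫_ℝ) • e 3 +
    (⟪e 1, z⟫_ℝ * ⟪e 2, v⟫_ℝ + ⟪e 2, z⟫_ℝ * ⟪e 1, v⟫_ℝ) • e 4 +
    (⟪e 2, z⟫_ℝ * ⟪e 2, v⟫_ℝ) • e 5 := by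
  simp only [Bil, add_apply, sub_apply, smul_apply, bl_apply]
  module

theorem Bil_symm (z v : E) : Bil e z v = Bil e v z := by
  rw [Bil_apply, Bil_apply]
  congr 1
  · congr 1
    · congr 1
      · congr 1
        · congr 1
          · congr 1; ring
          · congr 1; ring
        · congr 1; ring
      · congr 1; ring
    · congr 1; ring
  · congr 1; ring

/-- The gradient of the base function. -/
noncomputable def baseGrad (z : E) : E :=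
  (z - proj3 (e 0) (e 1) (e 2) z) + (1 / 2 : ℝ) • Bil e z z

/-- The base function. -/
noncomputable def baseFun (z : E) : ℝ :=
  (1 / 2) * (‖z‖ ^ 2 - (⟪e 0, z⟫_ℝ ^ 2 + ⟪e 1, z⟫_ℝ ^ 2 + ⟪e 2, z⟫_ℝ ^ 2)) +
  (⟪e 0, z⟫_ℝ * (⟪e 1, z⟫_ℝ ^ 2 + ⟪e 2, z⟫_ℝ ^ 2 - ⟪e 0, z⟫_ℝ ^ 2) +
    (1 / 2) * (⟪e 3, z⟫_ℝ * ⟪e 1, z⟫_ℝ ^ 2) + ⟪e 4, z⟫_ℝ * (⟪e 1, z⟫_ℝ * ⟪e 2, z⟫_ℝ) +
    (1 / 2) * (⟪e 5, z⟫_ℝ * ⟪e 2, z⟫_ℝ ^ 2))

theorem hasFDerivAt_baseFun (z : E) :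
    HasFDerivAt (baseFun e) (innerSL ℝ (baseGrad e z)) z := by
  have h0 := hasFDerivAt_inner (e 0) z
  have h1 := hasFDerivAt_inner (e 1) z
  have h2 := hasFDerivAt_inner (e 2) z
  have h3 := hasFDerivAt_inner (e 3) z
  have h4 := hasFDerivAt_inner (e 4) z
  have h5 := hasFDerivAt_inner (e 5) z
  have hn : HasFDerivAt (fun z : E => ‖z‖ ^ 2) (2 • (innerSL ℝ z)) z :=
    (hasStrictFDerivAt_norm_sq z).hasFDerivAt
  have h := ((hn.sub (((h0.pow 2).add (h1.pow 2)).add (h2.pow 2))).const_mul (1 / 2 : ℝ)).add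
    ((((h0.mul (((h1.pow 2).add (h2.pow 2)).sub (h0.pow 2))).add
      ((h3.mul (h1.pow 2)).const_mul (1 / 2 : ℝ))).add (h4.mul (h1.mul h2))).add
      ((h5.mul (h2.pow 2)).const_mul (1 / 2 : ℝ)))
  refine h.congr_fderiv ?_
  ext v
  simp only [baseGrad, Bil_apply, proj3, innerSL_apply_apply, inner_add_left, inner_smul_left,
    inner_sub_left, smul_eq_mul, nsmul_eq_mul, RCLike.conj_to_real]
  simp
  ring

theorem contDiff_baseFun {n : WithTop ℕ∞} : ContDiff ℝ n (baseFun e) := by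
  unfold baseFun
  have h0 := contDiff_inner_left (e 0) (n := n)
  have h1 := contDiff_inner_left (e 1) (n := n)
  have h2 := contDiff_inner_left (e 2) (n := n)
  have h3 := contDiff_inner_left (e 3) (n := n)
  have h4 := contDiff_inner_left (e 4) (n := n)
  have h5 := contDiff_inner_left (e 5) (n := n)
  have hn : ContDiff ℝ n (fun z : E => ‖z‖ ^ 2) := contDiff_norm_sq ℝ
  exact (contDiff_const.mul (hn.sub (((h0.pow 2).add (h1.pow 2)).add (h2.pow 2)))).add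
    ((((h0.mul (((h1.pow 2).add (h2.pow 2)).sub (h0.pow 2))).add
      (contDiff_const.mul (h3.mul (h1.pow 2)))).add (h4.mul (h1.mul h2))).add
      (contDiff_const.mul (h5.mul (h2.pow 2))))

theorem hasFDerivAt_baseGrad (z : E) : HasFDerivAt (baseGrad e)
    ((1 - projL (e 0) (e 1) (e 2)) + Bil e z) z := by
  have h1 : HasFDerivAt (fun z => (1 - projL (e 0) (e 1) (e 2)) z)
      (1 - projL (e 0) (e 1) (e 2)) z :=
    (1 - projL (e 0) (e 1) (e 2)).hasFDerivAt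
  have h2 : HasFDerivAt (fun z => Bil e z z) (Bil e z + (Bil e).flip z) z := by
    have h5 : HasFDerivAt (fun k => Bil e k) (Bil e) z := (Bil e).hasFDerivAt
    have h6 := h5.clm_apply (hasFDerivAt_id z)
    refine h6.congr_fderiv ?_
    ext v
    simp
  have h3 := h1.add (h2.const_smul (1 / 2 : ℝ))
  have hfun : baseGrad e = (fun z => (1 - projL (e 0) (e 1) (e 2)) z) +
      fun z => (1 / 2 : ℝ) • Bil e z z := by
    funext w
    simp [baseGrad, projL_apply]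
  rw [hfun]
  refine h3.congr_fderiv ?_
  ext v
  simp only [add_apply, smul_apply, ContinuousLinearMap.flip_apply]
  rw [Bil_symm e v z]
  module

theorem fderiv_baseGrad (z : E) : fderiv ℝ (baseGrad e) z =
    (1 - projL (e 0) (e 1) (e 2)) + Bil e z :=
  (hasFDerivAt_baseGrad e z).fderiv

theorem fderiv_baseGrad_apply (z v : E) : fderiv ℝ (baseGrad e) z v =
    (v - proj3 (e 0) (e 1) (e 2) v) + Bil e z v := by
  rw [fderiv_baseGrad]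
  simp [projL_apply]

theorem fderiv_fderiv_baseGrad (z : E) : fderiv ℝ (fderiv ℝ (baseGrad e)) z = Bil e := by
  have : fderiv ℝ (baseGrad e) = fun z => (1 - projL (e 0) (e 1) (e 2)) + Bil e z :=
    funext fun z => fderiv_baseGrad e z
  rw [this]
  exact ((Bil e).hasFDerivAt.const_add _).fderiv

theorem contDiff_baseGrad {n : WithTop ℕ∞} : ContDiff ℝ n (baseGrad e) := by
  unfold baseGrad
  apply (contDiff_id.sub (contDiff_proj3 _ _ _)).add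
  apply ContDiff.const_smul
  exact (Bil e).contDiff.clm_apply contDiff_id

theorem contDiff_fderiv_baseGrad {n : WithTop ℕ∞} : ContDiff ℝ n (fderiv ℝ (baseGrad e)) := by
  have : fderiv ℝ (baseGrad e) = fun z => (1 - projL (e 0) (e 1) (e 2)) + Bil e z :=
    funext fun z => fderiv_baseGrad e z
  rw [this]
  exact contDiff_const.add (Bil e).contDiff

variable {e}

theorem triple_of_orthonormal (he : Orthonormal ℝ e) : Triple (e 0) (e 1) (e 2) := by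
  have h : ∀ i j, ⟪e i, e j⟫_ℝ = if i = j then 1 else 0 := orthonormal_iff_ite.1 he
  refine ⟨?_, ?_, ?_, ?_, ?_, ?_⟩ <;> rw [h] <;> simp

/-- The kernel cubic of the base function is `x (y² + w² - x²)`. -/
theorem half_Bil_proj3 (he : Orthonormal ℝ e) (z : E) :
    proj3 (e 0) (e 1) (e 2) ((1 / 2 : ℝ) • Bil e (proj3 (e 0) (e 1) (e 2) z)
      (proj3 (e 0) (e 1) (e 2) z)) = quad3 (e 0) (e 1) (e 2) z := by
  have h : ∀ i j, ⟪e i, e j⟫_ℝ = if i = j then 1 else 0 := orthonormal_iff_ite.1 he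
  have T := triple_of_orthonormal he
  obtain ⟨h0, h1, h2⟩ := inner_proj3 T z
  have h3 : ⟪e 3, proj3 (e 0) (e 1) (e 2) z⟫_ℝ = 0 := by
    simp [proj3, inner_add_right, inner_smul_right, h]
  have h4 : ⟪e 4, proj3 (e 0) (e 1) (e 2) z⟫_ℝ = 0 := by
    simp [proj3, inner_add_right, inner_smul_right, h]
  have h5 : ⟪e 5, proj3 (e 0) (e 1) (e 2) z⟫_ℝ = 0 := by
    simp [proj3, inner_add_right, inner_smul_right, h]
  rw [Bil_apply]
  simp only [h0, h1, h2, h3, h4, h5]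
  simp only [proj3, quad3, inner_add_right, inner_smul_right, h]
  simp
  module

end Pool.Agent.HermanCaustic
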