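import Mathlib
import Pool.Agent.HermanCaustic.LocalLemma

/-!
# The local degree at the corank three point is zero
-/

set_option autoImplicit false
set_option linter.unusedSectionVars false

namespace Pool.Agent.HermanCaustic

open Metric Set Filter Topology Asymptotics
open scoped InnerProductSpace
open Pool.Agent.SmoothDegree

variable {E : Type*} [NormedAddCommGroup E] [InnerProductSpace ℝ E]

variable {e₀ e₁ e₂ : E}

/-- The rotation in the plane of `e₁, e₂`, shifted by `-e₀`. -/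
noncomputable def twist (e₀ e₁ e₂ : E) (z : E) : E :=
  ⟪e₁, z⟫_ℝ • e₂ - ⟪e₂, z⟫_ℝ • e₁ - e₀

theorem contDiff_twist (e₀ e₁ e₂ : E) {n : WithTop ℕ∞} : ContDiff ℝ n (twist e₀ e₁ e₂) := by
  unfold twist
  exact (((contDiff_inner_left e₁).smul contDiff_const).sub
    ((contDiff_inner_left e₂).smul contDiff_const)).sub contDiff_const

/-- The twisted model gradient has no zeros at all. -/
theorem twisted_ne_zero (T : Triple e₀ e₁ e₂) {ε : ℝ} (hε : 0 < ε) (z : E) :
    modelGrad e₀ e₁ e₂ z + ε • twist e₀ e₁ e₂ z ≠ 0 := by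
  intro hz
  obtain ⟨p0, p1, p2⟩ := inner_proj3 T z
  have i0 : ⟪e₀, modelGrad e₀ e₁ e₂ z + ε • twist e₀ e₁ e₂ z⟫_ℝ = 0 := by
    rw [hz, inner_zero_right]
  have i1 : ⟪e₁, modelGrad e₀ e₁ e₂ z + ε • twist e₀ e₁ e₂ z⟫_ℝ = 0 := by
    rw [hz, inner_zero_right]
  have i2 : ⟪e₂, modelGrad e₀ e₁ e₂ z + ε • twist e₀ e₁ e₂ z⟫_ℝ = 0 := by
    rw [hz, inner_zero_right]
  simp only [modelGrad, twist, quad3, inner_add_right, inner_sub_right, inner_smul_right,
    T.h00, T.h11, T.h22, T.h01, T.h02, T.h12, T.h10, T.h20, T.h21, p0, p1, p2] at i0 i1 i2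
  set x := ⟪e₀, z⟫_ℝ with hx
  set y := ⟪e₁, z⟫_ℝ with hy
  set w := ⟪e₂, z⟫_ℝ with hw
  have j0 : y ^ 2 + w ^ 2 - 3 * x ^ 2 - ε = 0 := by linarith
  have j1 : 2 * x * y - ε * w = 0 := by linarith
  have j2 : 2 * x * w + ε * y = 0 := by linarith
  have j3 : ε * (y ^ 2 + w ^ 2) = 0 := by
    have : y * (2 * x * w + ε * y) - w * (2 * x * y - ε * w) = 0 := by rw [j1, j2]; ring
    linarith
  have j4 : y ^ 2 + w ^ 2 = 0 := (mul_eq_zero.1 j3).resolve_left hε.ne'
  nlinarith [sq_nonneg x]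

theorem CorankData.isolating (T : Triple e₀ e₁ e₂) [FiniteDimensional ℝ E] {δ : ℝ}
    (hδ : δ ≤ 1 / 10) {F : E → E} (hF : ContDiff ℝ 1 F)
    {A : E →L[ℝ] E} {B : E →L[ℝ] E →L[ℝ] E} (D : CorankData e₀ e₁ e₂ δ F A B) :
    IsolatedInFibre F 0 ∧ HasLocalDegree F 0 0 := by
  obtain ⟨ρ, hρ, hne⟩ := D.nonvanishing T hδ
  have hiso : IsolatingNhd F 0 (closedBall (0:E) ρ) := by
    refine ⟨isCompact_closedBall _ _, closedBall_mem_nhds _ hρ, ?_⟩
    apply Subset.antisymm
    · rintro z ⟨hz, hzF⟩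
      by_contra hz0
      have h1 := hne z hz0 (by simpa using hz) 0 (by simp)
      apply h1
      have : F z = F 0 := hzF
      simp [this]
    · rintro _ rfl
      exact ⟨by simp [hρ.le], rfl⟩
  refine ⟨⟨_, hiso⟩, ?_⟩
  have hnt : Nontrivial E := by
    refine ⟨⟨e₀, 0, ?_⟩⟩
    rintro rfl
    have := T.h00
    simp at this
  have hsph : IsCompact (sphere (0:E) ρ) := isCompact_sphere _ _
  obtain ⟨m, hm, hmb⟩ := exists_lower_bound (F₀ := fun z => F z - F 0) (F₁ := modelGrad e₀ e₁ e₂)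
    (hF.continuous.sub continuous_const) (contDiff_modelGrad e₀ e₁ e₂ (n := 1)).continuous hsph
    (fun z hz t ht => hne z (by
      rintro rfl
      simp at hz
      exact hρ.ne hz) (by simpa using (mem_sphere_zero_iff_norm.1 hz).le) t ht)
  obtain ⟨M, hM⟩ := hsph.exists_bound_of_continuousOn
    (contDiff_twist e₀ e₁ e₂ (n := 1)).continuous.continuousOn
  set ε : ℝ := m / (2 * (|M| + 1)) with hε
  have hεpos : 0 < ε := by positivity
  apply hasLocalDegree_zero_of_homotopy hF hiso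
    (F₁ := fun z => modelGrad e₀ e₁ e₂ z + ε • twist e₀ e₁ e₂ z)
  · exact (contDiff_modelGrad e₀ e₁ e₂).add ((contDiff_twist e₀ e₁ e₂).const_smul ε)
  · intro z _
    exact twisted_ne_zero T hεpos z
  · intro z hz t ht h0
    rw [frontier_closedBall _ hρ.ne'] at hz
    have h1 := hmb z hz t ht
    have h2 : (F z - F 0) + t • (modelGrad e₀ e₁ e₂ z - (F z - F 0)) =
        -(t • ε • twist e₀ e₁ e₂ z) := by
      have h3 : (F z - F 0) + t • (modelGrad e₀ e₁ e₂ z - (F z - F 0)) + t • ε • twist e₀ e₁ e₂ z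
          = 0 := by
        refine Eq.trans ?_ h0
        module
      exact eq_neg_of_add_eq_zero_left h3
    rw [h2, norm_neg, norm_smul, norm_smul, Real.norm_eq_abs, Real.norm_eq_abs,
      abs_of_nonneg ht.1, abs_of_pos hεpos] at h1
    have h4 : ‖twist e₀ e₁ e₂ z‖ ≤ |M| := (hM z hz).trans (le_abs_self M)
    have h5 : t * (ε * ‖twist e₀ e₁ e₂ z‖) ≤ 1 * (ε * |M|) :=
      mul_le_mul ht.2 (mul_le_mul_of_nonneg_left h4 hεpos.le) (by positivity) zero_le_one
    have h6 : ε * |M| ≤ m / 2 := by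
      rw [hε, div_mul_eq_mul_div, div_le_div_iff₀ (by positivity) (by norm_num)]
      nlinarith [abs_nonneg M]
    linarith

end Pool.Agent.HermanCaustic
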