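import Mathlib

/-!
# Persistence of a nondegenerate zero under Lipschitz-small perturbations
-/

set_option autoImplicit false

namespace Pool.Agent.HermanCaustic

open Metric Set Filter Topology
open scoped NNReal

variable {X : Type*} [NormedAddCommGroup X] [NormedSpace ℝ X] [FiniteDimensional ℝ X]

theorem stable_zero [Nontrivial X] {Ψ : X → X} {D : X →L[ℝ] X} (hD : HasStrictFDerivAt Ψ D 0)
    (hinj : ∀ v, D v = 0 → v = 0) (h0 : Ψ 0 = 0) {r : ℝ} (hr : 0 < r) :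
    ∃ η > (0:ℝ), ∀ Θ : X → X,
      (∀ x ∈ closedBall (0:X) 1, ∀ y ∈ closedBall (0:X) 1, ‖Θ x - Θ y‖ ≤ η * ‖x - y‖) →
      ‖Θ 0‖ ≤ η → ∃ x, ‖x‖ ≤ r ∧ Ψ x + Θ x = 0 := by
  have hker : LinearMap.ker (D : X →ₗ[ℝ] X) = ⊥ := by
    rw [LinearMap.ker_eq_bot']
    exact hinj
  set D' : X ≃L[ℝ] X := (LinearEquiv.ofInjectiveEndo (D : X →ₗ[ℝ] X)
    (LinearMap.ker_eq_bot.1 hker)).toContinuousLinearEquiv with hD'
  have hDD : (D' : X →L[ℝ] X) = D := by
    ext v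
    rfl
  obtain ⟨N, hN⟩ : ∃ N : ℝ≥0, (N : ℝ) = ‖(D'.symm : X →L[ℝ] X)‖ + 1 :=
    ⟨‖(D'.symm : X →L[ℝ] X)‖₊ + 1, by push_cast; rfl⟩
  have hN1 : (1:ℝ) ≤ N := by
    rw [hN]
    linarith [(D'.symm : X →L[ℝ] X).opNorm_nonneg]
  have hNpos : (0:ℝ) < N := by linarith
  obtain ⟨c, hcN⟩ : ∃ c : ℝ≥0, (c:ℝ) = 1 / (4 * N) :=
    ⟨(4 * N)⁻¹, by push_cast; rw [one_div]⟩
  have hcpos : 0 < c := by
    have : (0:ℝ) < c := by rw [hcN]; positivity
    exact_mod_cast this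
  obtain ⟨s, hs, happ⟩ := hD.approximates_deriv_on_nhds (c := c) (Or.inr hcpos)
  obtain ⟨r₁, hr₁, hball⟩ := Metric.mem_nhds_iff.1 hs
  set r' : ℝ := min (min r 1) (r₁ / 2) with hr'
  have hr'pos : 0 < r' := by positivity
  have hr'r : r' ≤ r := (min_le_left _ _).trans (min_le_left _ _)
  have hr'1 : r' ≤ 1 := (min_le_left _ _).trans (min_le_right _ _)
  have hr'r₁ : r' < r₁ := by
    have : r' ≤ r₁ / 2 := min_le_right _ _
    linarith
  refine ⟨min (1 / (4 * N)) (r' / (2 * N)), by positivity, fun Θ hΘ hΘ0 => ?_⟩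
  set η : ℝ := min (1 / (4 * N)) (r' / (2 * N)) with hη
  have hηpos : 0 < η := by positivity
  have hη1 : η ≤ 1 / (4 * N) := min_le_left _ _
  have hη2 : η ≤ r' / (2 * N) := min_le_right _ _
  obtain ⟨c', hc'⟩ : ∃ c' : ℝ≥0, (c' : ℝ) = c + η :=
    ⟨⟨c + η, by positivity⟩, rfl⟩
  have hsub : closedBall (0:X) r' ⊆ s := (closedBall_subset_ball hr'r₁).trans hball
  have happ' : ApproximatesLinearOn (fun x => Ψ x + Θ x) (D' : X →L[ℝ] X) (closedBall (0:X) r')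
      c' := by
    intro x hx y hy
    have h1 := happ x (hsub hx) y (hsub hy)
    have h2 := hΘ x (closedBall_subset_closedBall hr'1 hx) y (closedBall_subset_closedBall hr'1 hy)
    rw [hDD, hc']
    calc ‖Ψ x + Θ x - (Ψ y + Θ y) - D (x - y)‖
        = ‖(Ψ x - Ψ y - D (x - y)) + (Θ x - Θ y)‖ := by congr 1; abel
      _ ≤ ‖Ψ x - Ψ y - D (x - y)‖ + ‖Θ x - Θ y‖ := norm_add_le _ _
      _ ≤ c * ‖x - y‖ + η * ‖x - y‖ := add_le_add h1 h2
      _ = (c + η) * ‖x - y‖ := by ring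
  have hsurj := happ'.surjOn_closedBall_of_nonlinearRightInverse D'.toNonlinearRightInverse
    hr'pos.le Subset.rfl
  have hnn : (D'.toNonlinearRightInverse.nnnorm : ℝ) = ‖(D'.symm : X →L[ℝ] X)‖ := rfl
  have hmem : (0:X) ∈ closedBall (Ψ 0 + Θ 0)
      (((D'.toNonlinearRightInverse.nnnorm : ℝ)⁻¹ - (c' : ℝ)) * r') := by
    rw [h0, zero_add, mem_closedBall, dist_eq_norm, zero_sub, norm_neg]
    refine hΘ0.trans ?_
    rw [hnn]
    have hpos : 0 < ‖(D'.symm : X →L[ℝ] X)‖ := by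
      rw [norm_pos_iff]
      intro h
      obtain ⟨v, hv⟩ := exists_ne (0:X)
      apply hv
      have : (D'.symm : X →L[ℝ] X) (D' v) = 0 := by rw [h]; rfl
      simpa using this
    have hNle : ‖(D'.symm : X →L[ℝ] X)‖ ≤ N := by
      rw [hN]
      linarith
    have h3 : (1:ℝ) / N ≤ ‖(D'.symm : X →L[ℝ] X)‖⁻¹ := by
      rw [one_div]
      exact inv_anti₀ hpos hNle
    have h4 : (c' : ℝ) ≤ 1 / (2 * N) := by
      rw [hc', hcN]
      calc (1:ℝ) / (4 * N) + η ≤ 1 / (4 * N) + 1 / (4 * N) := add_le_add le_rfl hη1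
        _ = 1 / (2 * N) := by field_simp; norm_num
    calc η ≤ r' / (2 * N) := hη2
      _ = (1 / N - 1 / (2 * N)) * r' := by field_simp; norm_num
      _ ≤ (‖(D'.symm : X →L[ℝ] X)‖⁻¹ - (c' : ℝ)) * r' := by
          apply mul_le_mul_of_nonneg_right _ hr'pos.le
          linarith
  obtain ⟨x, hx, hx0⟩ := hsurj hmem
  exact ⟨x, by simpa using closedBall_subset_closedBall hr'r hx, hx0⟩

end Pool.Agent.HermanCaustic
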