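import Mathlib

/-!
# Second order Taylor expansion with little-o remainder
-/

set_option autoImplicit false

namespace Pool.Agent.HermanCaustic

open Metric Set Filter Topology Asymptotics

variable {E F : Type*} [NormedAddCommGroup E] [NormedSpace ℝ E] [NormedAddCommGroup F]
  [NormedSpace ℝ F]

theorem taylor_two {f : E → F} (hf : ContDiff ℝ 2 f) (p : E) :
    (fun h => f (p + h) - f p - fderiv ℝ f p h - (1 / 2 : ℝ) • fderiv ℝ (fderiv ℝ f) p h h)
      =o[𝓝 0] fun h : E => ‖h‖ ^ 2 := by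
  have hsymm : ∀ u v, fderiv ℝ (fderiv ℝ f) p u v = fderiv ℝ (fderiv ℝ f) p v u := by
    have := (hf.contDiffAt (x := p)).isSymmSndFDerivAt (by simp)
    exact fun u v => this u v
  have hf1 : ContDiff ℝ 1 (fderiv ℝ f) := hf.fderiv_right (by norm_num)
  have hd : HasFDerivAt (fderiv ℝ f) (fderiv ℝ (fderiv ℝ f) p) p :=
    (hf1.differentiable one_ne_zero p).hasFDerivAt
  rw [isLittleO_iff]
  intro c hc
  have h1 := (hasFDerivAt_iff_isLittleO_nhds_zero.1 hd).def hc
  obtain ⟨ρ, hρ, hb⟩ := Metric.eventually_nhds_iff_ball.1 h1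
  filter_upwards [ball_mem_nhds (0:E) hρ] with h hh
  rw [mem_ball_zero_iff] at hh
  set D2 := fderiv ℝ (fderiv ℝ f) p with hD2
  set Q : E → F := fun k => f (p + k) - f p - fderiv ℝ f p k - (1 / 2 : ℝ) • D2 k k with hQ
  have hQd : ∀ k, HasFDerivAt Q (fderiv ℝ f (p + k) - fderiv ℝ f p - D2 k) k := by
    intro k
    have e1 : HasFDerivAt (fun k => f (p + k)) (fderiv ℝ f (p + k)) k := by
      have h3 : HasFDerivAt f (fderiv ℝ f (p + k)) (p + k) :=
        (hf.differentiable (by norm_num) _).hasFDerivAt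
      have h4 : HasFDerivAt (fun k : E => p + k) (ContinuousLinearMap.id ℝ E) k :=
        (hasFDerivAt_id k).const_add p
      exact h3.comp k h4
    have e2 : HasFDerivAt (fun k => D2 k k) (D2 k + D2.flip k) k := by
      have h5 : HasFDerivAt (fun k => D2 k) D2 k := D2.hasFDerivAt
      have h6 := h5.clm_apply (hasFDerivAt_id k)
      refine h6.congr_fderiv ?_
      ext v
      simp
    have e3 := ((e1.sub_const (f p)).sub (fderiv ℝ f p).hasFDerivAt).sub (e2.const_smul (1 / 2 : ℝ))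
    refine e3.congr_fderiv ?_
    ext v
    have := hsymm v k
    simp only [sub_apply, smul_apply, add_apply, ContinuousLinearMap.flip_apply]
    rw [this]
    module
  have hbound : ∀ k ∈ closedBall (0:E) ‖h‖,
      ‖fderiv ℝ f (p + k) - fderiv ℝ f p - D2 k‖ ≤ c * ‖h‖ := by
    intro k hk
    rw [mem_closedBall_zero_iff] at hk
    have := hb k (by rw [mem_ball_zero_iff]; linarith)
    exact this.trans (mul_le_mul_of_nonneg_left hk hc.le)
  have h7 := (convex_closedBall (0:E) ‖h‖).norm_image_sub_le_of_norm_hasFDerivWithin_le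
    (fun k _ => (hQd k).hasFDerivWithinAt) hbound
    (show (0:E) ∈ closedBall (0:E) ‖h‖ by simp) (show h ∈ closedBall (0:E) ‖h‖ by simp)
  have h8 : Q 0 = 0 := by simp [hQ]
  rw [h8, sub_zero, sub_zero] at h7
  rw [Real.norm_eq_abs, abs_of_nonneg (sq_nonneg ‖h‖)]
  calc ‖Q h‖ ≤ c * ‖h‖ * ‖h‖ := h7
    _ = c * ‖h‖ ^ 2 := by ring

end Pool.Agent.HermanCaustic
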