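import Mathlib
import Pool.Agent.HermanCaustic.Base
import Pool.Agent.HermanCaustic.StableZero
import Pool.Agent.HermanCaustic.Taylor

/-!
# Persistence of the corank three point under small perturbations of the gradient field
-/

set_option autoImplicit false
set_option linter.unusedSectionVars false

namespace Pool.Agent.HermanCaustic

open Metric Set Filter Topology Asymptotics
open scoped InnerProductSpace ContDiff

variable {E : Type*} [NormedAddCommGroup E] [InnerProductSpace ℝ E] (e : Fin 6 → E)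

/-- The parameter space. -/
abbrev Par (E : Type*) : Type _ := (Fin 6 → ℝ) × (Fin 3 → E)

/-- The base point with coordinates `p`. -/
noncomputable def pt (p : Fin 6 → ℝ) : E := ∑ j, p j • e j

/-- First indices of the six symmetric pairs. -/
def idxI : Fin 6 → Fin 3 := ![0, 0, 0, 1, 1, 2]

/-- Second indices of the six symmetric pairs. -/
def idxJ : Fin 6 → Fin 3 := ![0, 1, 2, 1, 2, 2]

/-- The first three vectors. -/
noncomputable def fst3 (i : Fin 3) : E := e (Fin.castLE (by norm_num) i)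

/-- The equations for a corank three point, linear in the Hessian field. -/
noncomputable def psiLin (H : E → (E →L[ℝ] E)) (x : Par E) : Par E :=
  (fun k => ⟪H (pt e x.1) (fst3 e (idxI k) + x.2 (idxI k)), fst3 e (idxJ k) + x.2 (idxJ k)⟫_ℝ,
   fun i => H (pt e x.1) (fst3 e i + x.2 i) -
     proj3 (e 0) (e 1) (e 2) (H (pt e x.1) (fst3 e i + x.2 i)))

/-- The normalised equations. -/
noncomputable def psi (H : E → (E →L[ℝ] E)) (x : Par E) : Par E :=
  psiLin e H x + (0, fun i => proj3 (e 0) (e 1) (e 2) (x.2 i))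

theorem psiLin_add (H K : E → (E →L[ℝ] E)) (x : Par E) :
    psiLin e (fun z => H z + K z) x = psiLin e H x + psiLin e K x := by
  apply Prod.ext
  · funext k
    simp [psiLin, inner_add_left]
  · funext i
    simp only [psiLin, add_apply, proj3_add, Prod.snd_add, Pi.add_apply]
    abel

theorem contDiff_psi {H : E → (E →L[ℝ] E)} (hH : ContDiff ℝ 1 H) : ContDiff ℝ 1 (psi e H) := by
  have hpt : ContDiff ℝ 1 (fun x : Par E => pt e x.1) := by
    unfold pt
    apply ContDiff.sum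
    intro j _
    apply ContDiff.smul _ contDiff_const
    exact (contDiff_apply ℝ ℝ j).comp contDiff_fst
  have hk : ∀ i : Fin 3, ContDiff ℝ 1 (fun x : Par E => fst3 e i + x.2 i) := by
    intro i
    apply contDiff_const.add
    exact (contDiff_apply ℝ E i).comp contDiff_snd
  have hHk : ∀ i : Fin 3, ContDiff ℝ 1 (fun x : Par E => H (pt e x.1) (fst3 e i + x.2 i)) :=
    fun i => (hH.comp hpt).clm_apply (hk i)
  have hp : ContDiff ℝ 1 (proj3 (e 0) (e 1) (e 2)) := contDiff_proj3 _ _ _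
  unfold psi psiLin
  apply ContDiff.add
  · apply ContDiff.prodMk
    · rw [contDiff_pi]
      intro k
      exact (hHk (idxI k)).inner ℝ (hk (idxJ k))
    · rw [contDiff_pi]
      intro i
      exact (hHk i).sub (hp.comp (hHk i))
  · apply ContDiff.prodMk contDiff_const
    rw [contDiff_pi]
    intro i
    exact hp.comp ((contDiff_apply ℝ E i).comp contDiff_snd)

variable {e}

theorem fst3_inner (he : Orthonormal ℝ e) (i j : Fin 3) :
    ⟪fst3 e i, fst3 e j⟫_ℝ = if i = j then 1 else 0 := by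
  have h : ∀ i j, ⟪e i, e j⟫_ℝ = if i = j then 1 else 0 := orthonormal_iff_ite.1 he
  unfold fst3
  rw [h]
  simp [Fin.castLE_inj]

theorem norm_e (he : Orthonormal ℝ e) (i : Fin 6) : ‖e i‖ = 1 := he.1 i

theorem norm_fst3 (he : Orthonormal ℝ e) (i : Fin 3) : ‖fst3 e i‖ = 1 := he.1 _

theorem proj3_fst3 (he : Orthonormal ℝ e) (i : Fin 3) :
    proj3 (e 0) (e 1) (e 2) (fst3 e i) = fst3 e i := by
  have h : ∀ i j, ⟪e i, e j⟫_ℝ = if i = j then 1 else 0 := orthonormal_iff_ite.1 he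
  have hn : ∀ i, ‖e i‖ = 1 := he.1
  fin_cases i <;> simp [proj3, fst3, h, hn, Fin.castLE]

theorem proj3_eq_sum (z : E) : proj3 (e 0) (e 1) (e 2) z = ∑ i : Fin 3, ⟪fst3 e i, z⟫_ℝ • fst3 e i := by
  rw [Fin.sum_univ_three]
  rfl

theorem norm_pt_le (he : Orthonormal ℝ e) (p : Fin 6 → ℝ) : ‖pt e p‖ ≤ 6 * ‖p‖ := by
  unfold pt
  calc ‖∑ j, p j • e j‖ ≤ ∑ j, ‖p j • e j‖ := norm_sum_le _ _
    _ ≤ ∑ _j : Fin 6, ‖p‖ := by
        apply Finset.sum_le_sum
        intro j _
        rw [norm_smul, norm_e he, mul_one]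
        exact norm_le_pi_norm p j
    _ = 6 * ‖p‖ := by simp

theorem pt_sub (p q : Fin 6 → ℝ) : pt e p - pt e q = pt e (p - q) := by
  unfold pt
  rw [← Finset.sum_sub_distrib]
  apply Finset.sum_congr rfl
  intro j _
  rw [Pi.sub_apply, sub_smul]

theorem pt_smul (t : ℝ) (p : Fin 6 → ℝ) : pt e (t • p) = t • pt e p := by
  unfold pt
  rw [Finset.smul_sum]
  apply Finset.sum_congr rfl
  intro j _
  rw [Pi.smul_apply, smul_assoc]

theorem inner_pt (he : Orthonormal ℝ e) (i : Fin 6) (p : Fin 6 → ℝ) : ⟪e i, pt e p⟫_ℝ = p i := by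
  have h : ∀ i j, ⟪e i, e j⟫_ℝ = if i = j then 1 else 0 := orthonormal_iff_ite.1 he
  unfold pt
  rw [inner_sum]
  simp [inner_smul_right, h]

/-- The derivative of the equations of the base field at the origin. -/
noncomputable def psiDer (e : Fin 6 → E) (v : Par E) : Par E :=
  (fun k => ⟪Bil e (pt e v.1) (fst3 e (idxI k)), fst3 e (idxJ k)⟫_ℝ,
   fun i => v.2 i + (Bil e (pt e v.1) (fst3 e i) -
     proj3 (e 0) (e 1) (e 2) (Bil e (pt e v.1) (fst3 e i))))

theorem psi_expand (he : Orthonormal ℝ e) (v : Par E) : ∃ r₂ r₃ : Par E, ∀ t : ℝ,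
    psi e (fderiv ℝ (baseGrad e)) (t • v) = t • psiDer e v + t ^ 2 • r₂ + t ^ 3 • r₃ := by
  have T := triple_of_orthonormal he
  set b := v.2 with hb
  set P := pt e v.1 with hP
  set q : Fin 3 → E := fun i => b i - proj3 (e 0) (e 1) (e 2) (b i) with hq
  refine ⟨(fun k => ⟪q (idxI k), b (idxJ k)⟫_ℝ + ⟪Bil e P (fst3 e (idxI k)), b (idxJ k)⟫_ℝ +
      ⟪Bil e P (b (idxI k)), fst3 e (idxJ k)⟫_ℝ,
    fun i => Bil e P (b i) - proj3 (e 0) (e 1) (e 2) (Bil e P (b i))),
    (fun k => ⟪Bil e P (b (idxI k)), b (idxJ k)⟫_ℝ, 0), fun t => ?_⟩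
  have hval : ∀ i, fderiv ℝ (baseGrad e) (pt e (t • v).1) (fst3 e i + (t • v).2 i) =
      t • (q i + Bil e P (fst3 e i)) + t ^ 2 • Bil e P (b i) := by
    intro i
    rw [fderiv_baseGrad_apply]
    have e1 : pt e (t • v).1 = t • P := by rw [Prod.smul_fst, pt_smul]
    have e2 : (t • v).2 i = t • b i := rfl
    rw [e1, e2, proj3_add, proj3_fst3 he, proj3_smul, map_smul]
    simp only [smul_apply, map_add, map_smul, hq]
    module
  have hqp : ∀ i j, ⟪q i, fst3 e j⟫_ℝ = 0 := by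
    intro i j
    rw [hq]
    simp only
    rw [← proj3_fst3 he j, inner_proj3_symm, proj3_sub, proj3_proj3 T, sub_self, inner_zero_left]
  apply Prod.ext
  · funext k
    simp only [psi, psiLin, psiDer, Prod.fst_add, Prod.smul_fst, Pi.add_apply, Pi.smul_apply,
      smul_eq_mul, Pi.zero_apply, add_zero]
    have h1 := hval (idxI k)
    simp only [Prod.smul_fst] at h1
    rw [h1]
    have e2 : (t • v).2 (idxJ k) = t • b (idxJ k) := rfl
    rw [e2]
    simp only [inner_add_left, inner_add_right, inner_smul_left, inner_smul_right, hqp,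
      RCLike.conj_to_real]
    ring
  · funext i
    simp only [psi, psiLin, psiDer, Prod.snd_add, Prod.smul_snd, Pi.add_apply, Pi.smul_apply,
      smul_zero, Prod.smul_fst]
    have h1 := hval i
    simp only [Prod.smul_fst, Prod.smul_snd, Pi.smul_apply] at h1
    rw [h1]
    simp only [proj3_add, proj3_smul, hq, proj3_sub, proj3_proj3 T, sub_self, Pi.zero_apply,
      add_zero]
    module

theorem psiDer_injective (he : Orthonormal ℝ e) {v : Par E} (hv : psiDer e v = 0) : v = 0 := by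
  have h : ∀ i j, ⟪e i, e j⟫_ℝ = if i = j then 1 else 0 := orthonormal_iff_ite.1 he
  have hn : ∀ i, ‖e i‖ = 1 := he.1
  have hp : ∀ i, ⟪e i, pt e v.1⟫_ℝ = v.1 i := fun i => inner_pt he i v.1
  have h1 : ∀ k, ⟪Bil e (pt e v.1) (fst3 e (idxI k)), fst3 e (idxJ k)⟫_ℝ = 0 := fun k =>
    congrFun (congrArg Prod.fst hv) k
  have c0 := h1 0
  have c1 := h1 1
  have c2 := h1 2
  have c3 := h1 3
  have c4 := h1 4
  have c5 := h1 5
  simp only [idxI, idxJ, Bil_apply, hp, fst3] at c0 c1 c2 c3 c4 c5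
  simp [inner_add_left, inner_smul_left, h, hn, Fin.castLE] at c0 c1 c2 c3 c4 c5
  have hv1 : v.1 = 0 := by
    funext j
    fin_cases j
    · simpa using c0
    · simpa using c1
    · simpa using c2
    · have : v.1 3 = 0 := by
        rw [c0] at c3
        simpa using c3
      simpa using this
    · simpa using c4
    · have : v.1 5 = 0 := by
        rw [c0] at c5
        simpa using c5
      simpa using this
  have hpt : pt e v.1 = 0 := by rw [hv1]; simp [pt]
  have h2 : ∀ i, v.2 i = 0 := by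
    intro i
    have := congrFun (congrArg Prod.snd hv) i
    simpa [psiDer, hpt, proj3] using this
  exact Prod.ext hv1 (funext h2)

theorem psi_base_zero (he : Orthonormal ℝ e) : psi e (fderiv ℝ (baseGrad e)) 0 = 0 := by
  obtain ⟨r₂, r₃, h⟩ := psi_expand he (0 : Par E)
  simpa using h 0

theorem fderiv_psi_injective [FiniteDimensional ℝ E] (he : Orthonormal ℝ e) (v : Par E)
    (hv : fderiv ℝ (psi e (fderiv ℝ (baseGrad e))) 0 v = 0) : v = 0 := by
  apply psiDer_injective he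
  obtain ⟨r₂, r₃, h⟩ := psi_expand he v
  set Ψ := psi e (fderiv ℝ (baseGrad e)) with hΨ
  have hc : ContDiff ℝ 1 Ψ := contDiff_psi e (contDiff_fderiv_baseGrad e)
  have h1 : HasFDerivAt Ψ (fderiv ℝ Ψ 0) ((0:ℝ) • v) := by
    rw [zero_smul]
    exact (hc.differentiable one_ne_zero 0).hasFDerivAt
  have h2 : HasDerivAt (fun t : ℝ => t • v) v 0 := by
    simpa using (hasDerivAt_id (0:ℝ)).smul_const v
  have h3 : HasDerivAt (fun t : ℝ => Ψ (t • v)) (fderiv ℝ Ψ 0 v) 0 :=
    HasFDerivAt.comp_hasDerivAt (f := fun t : ℝ => t • v) (0:ℝ) h1 h2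
  have h4 : HasDerivAt (fun t : ℝ => t • psiDer e v + t ^ 2 • r₂ + t ^ 3 • r₃) (psiDer e v) 0 := by
    have a1 := (hasDerivAt_id (0:ℝ)).smul_const (psiDer e v)
    have a2 := (hasDerivAt_pow 2 (0:ℝ)).smul_const r₂
    have a3 := (hasDerivAt_pow 3 (0:ℝ)).smul_const r₃
    have a4 := (a1.add a2).add a3
    refine a4.congr_deriv ?_
    simp
  have h5 : (fun t : ℝ => Ψ (t • v)) = fun t : ℝ => t • psiDer e v + t ^ 2 • r₂ + t ^ 3 • r₃ :=
    funext h
  rw [h5] at h3
  rw [← h4.unique h3] at hv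
  exact hv

/-- Lipschitz estimate for the perturbation of the equations. -/
theorem psiLin_lipschitz (he : Orthonormal ℝ e) {H : E → (E →L[ℝ] E)} {ε : ℝ} (hε : 0 ≤ ε)
    (hH : ∀ z, ‖H z‖ ≤ ε) (hL : ∀ z w, ‖H z - H w‖ ≤ ε * ‖z - w‖) :
    (∀ x ∈ closedBall (0 : Par E) 1, ∀ y ∈ closedBall (0 : Par E) 1,
      ‖psiLin e H x - psiLin e H y‖ ≤ 28 * ε * ‖x - y‖) ∧ ‖psiLin e H 0‖ ≤ ε := by
  have T := triple_of_orthonormal he
  have hsub_proj : ∀ w : E, ‖w - proj3 (e 0) (e 1) (e 2) w‖ ≤ ‖w‖ := norm_sub_proj3_le T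
  constructor
  · intro x hx y hy
    rw [mem_closedBall_zero_iff] at hx hy
    have hx2 : ∀ i, ‖x.2 i‖ ≤ 1 := fun i =>
      (norm_le_pi_norm x.2 i).trans ((norm_snd_le x).trans hx)
    have hy2 : ∀ i, ‖y.2 i‖ ≤ 1 := fun i =>
      (norm_le_pi_norm y.2 i).trans ((norm_snd_le y).trans hy)
    have hxy2 : ∀ i, ‖x.2 i - y.2 i‖ ≤ ‖x - y‖ := fun i =>
      (norm_le_pi_norm (x.2 - y.2) i).trans (norm_snd_le (x - y))
    have hxy1 : ‖pt e x.1 - pt e y.1‖ ≤ 6 * ‖x - y‖ := by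
      rw [pt_sub]
      exact (norm_pt_le he _).trans (mul_le_mul_of_nonneg_left (norm_fst_le (x - y)) (by norm_num))
    set κ : Fin 3 → E := fun i => fst3 e i + x.2 i with hκ
    set κ' : Fin 3 → E := fun i => fst3 e i + y.2 i with hκ'
    have hκn : ∀ i, ‖κ i‖ ≤ 2 := by
      intro i
      calc ‖κ i‖ ≤ ‖fst3 e i‖ + ‖x.2 i‖ := norm_add_le _ _
        _ ≤ 1 + 1 := add_le_add (norm_fst3 he i).le (hx2 i)
        _ = 2 := by norm_num
    have hκn' : ∀ i, ‖κ' i‖ ≤ 2 := by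
      intro i
      calc ‖κ' i‖ ≤ ‖fst3 e i‖ + ‖y.2 i‖ := norm_add_le _ _
        _ ≤ 1 + 1 := add_le_add (norm_fst3 he i).le (hy2 i)
        _ = 2 := by norm_num
    have hκd : ∀ i, ‖κ i - κ' i‖ ≤ ‖x - y‖ := by
      intro i
      have : κ i - κ' i = x.2 i - y.2 i := by simp only [hκ, hκ']; abel
      rw [this]; exact hxy2 i
    set A := H (pt e x.1) with hA
    set A' := H (pt e y.1) with hA'
    have hAA : ‖A - A'‖ ≤ 6 * ε * ‖x - y‖ := by
      calc ‖A - A'‖ ≤ ε * ‖pt e x.1 - pt e y.1‖ := hL _ _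
        _ ≤ ε * (6 * ‖x - y‖) := mul_le_mul_of_nonneg_left hxy1 hε
        _ = 6 * ε * ‖x - y‖ := by ring
    have hxy0 : 0 ≤ ‖x - y‖ := norm_nonneg _
    have hAk : ∀ i, ‖A (κ i) - A' (κ' i)‖ ≤ 13 * ε * ‖x - y‖ := by
      intro i
      have h1 : A (κ i) - A' (κ' i) = (A - A') (κ i) + A' (κ i - κ' i) := by
        simp only [sub_apply, map_sub]; abel
      rw [h1]
      calc ‖(A - A') (κ i) + A' (κ i - κ' i)‖ ≤ ‖(A - A') (κ i)‖ + ‖A' (κ i - κ' i)‖ :=
            norm_add_le _ _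
        _ ≤ ‖A - A'‖ * ‖κ i‖ + ‖A'‖ * ‖κ i - κ' i‖ :=
            add_le_add ((A - A').le_opNorm _) (A'.le_opNorm _)
        _ ≤ (6 * ε * ‖x - y‖) * 2 + ε * ‖x - y‖ := by
            apply add_le_add
            · exact mul_le_mul hAA (hκn i) (norm_nonneg _) (by positivity)
            · exact mul_le_mul (hH _) (hκd i) (norm_nonneg _) hε
        _ = 13 * ε * ‖x - y‖ := by ring
    rw [Prod.norm_def, max_le_iff]
    constructor
    · rw [Prod.fst_sub, pi_norm_le_iff_of_nonneg (by positivity)]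
      intro k
      rw [Pi.sub_apply, Real.norm_eq_abs]
      change |⟪A (κ (idxI k)), κ (idxJ k)⟫_ℝ - ⟪A' (κ' (idxI k)), κ' (idxJ k)⟫_ℝ| ≤ _
      have h1 : ⟪A (κ (idxI k)), κ (idxJ k)⟫_ℝ - ⟪A' (κ' (idxI k)), κ' (idxJ k)⟫_ℝ =
          ⟪A (κ (idxI k)) - A' (κ' (idxI k)), κ (idxJ k)⟫_ℝ +
          ⟪A' (κ' (idxI k)), κ (idxJ k) - κ' (idxJ k)⟫_ℝ := by
        rw [inner_sub_left, inner_sub_right]; ring
      rw [h1]
      have h2 : |⟪A (κ (idxI k)) - A' (κ' (idxI k)), κ (idxJ k)⟫_ℝ| ≤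
          (13 * ε * ‖x - y‖) * 2 :=
        (abs_real_inner_le_norm _ _).trans
          (mul_le_mul (hAk _) (hκn _) (norm_nonneg _) (by positivity))
      have h3 : |⟪A' (κ' (idxI k)), κ (idxJ k) - κ' (idxJ k)⟫_ℝ| ≤ (ε * 2) * ‖x - y‖ := by
        refine (abs_real_inner_le_norm _ _).trans ?_
        apply mul_le_mul _ (hκd _) (norm_nonneg _) (by positivity)
        exact (A'.le_opNorm _).trans (mul_le_mul (hH _) (hκn' _) (norm_nonneg _) hε)
      refine (abs_add_le _ _).trans ?_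
      linarith
    · rw [Prod.snd_sub, pi_norm_le_iff_of_nonneg (by positivity)]
      intro i
      rw [Pi.sub_apply]
      change ‖(A (κ i) - proj3 (e 0) (e 1) (e 2) (A (κ i))) -
        (A' (κ' i) - proj3 (e 0) (e 1) (e 2) (A' (κ' i)))‖ ≤ _
      have h1 : (A (κ i) - proj3 (e 0) (e 1) (e 2) (A (κ i))) -
        (A' (κ' i) - proj3 (e 0) (e 1) (e 2) (A' (κ' i))) =
        (A (κ i) - A' (κ' i)) - proj3 (e 0) (e 1) (e 2) (A (κ i) - A' (κ' i)) := by
        rw [proj3_sub]; abel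
      rw [h1]
      refine (hsub_proj _).trans ((hAk i).trans ?_)
      have : 0 ≤ ε * ‖x - y‖ := by positivity
      linarith
  · have hA : ‖H (pt e (0 : Par E).1)‖ ≤ ε := hH _
    have hk : ∀ i : Fin 3, ‖H (pt e (0 : Par E).1) (fst3 e i + (0 : Par E).2 i)‖ ≤ ε := by
      intro i
      have h1 : fst3 e i + (0 : Par E).2 i = fst3 e i := by simp
      rw [h1]
      have := (H (pt e (0 : Par E).1)).le_opNorm (fst3 e i)
      rw [norm_fst3 he, mul_one] at this
      exact this.trans hA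
    rw [Prod.norm_def, max_le_iff]
    constructor
    · rw [pi_norm_le_iff_of_nonneg hε]
      intro k
      rw [Real.norm_eq_abs]
      change |⟪H (pt e (0 : Par E).1) (fst3 e (idxI k) + (0 : Par E).2 (idxI k)),
        fst3 e (idxJ k) + (0 : Par E).2 (idxJ k)⟫_ℝ| ≤ ε
      have h1 : fst3 e (idxJ k) + (0 : Par E).2 (idxJ k) = fst3 e (idxJ k) := by simp
      refine (abs_real_inner_le_norm _ _).trans ?_
      rw [h1, norm_fst3 he, mul_one]
      exact hk _
    · rw [pi_norm_le_iff_of_nonneg hε]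
      intro i
      exact (hsub_proj _).trans (hk i)

/-- From a solution of the equations to a three-dimensional kernel. -/
theorem kernel_of_psi_zero (he : Orthonormal ℝ e) {H : E → (E →L[ℝ] E)} {x : Par E}
    (hsymm : ∀ u v, ⟪H (pt e x.1) u, v⟫_ℝ = ⟪u, H (pt e x.1) v⟫_ℝ) (hx : psi e H x = 0) :
    (∀ i, H (pt e x.1) (fst3 e i + x.2 i) = 0) ∧
      ∀ i, proj3 (e 0) (e 1) (e 2) (x.2 i) = 0 := by
  have T := triple_of_orthonormal he
  set A := H (pt e x.1) with hA
  set κ : Fin 3 → E := fun i => fst3 e i + x.2 i with hκ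
  have hb : ∀ i, (A (κ i) - proj3 (e 0) (e 1) (e 2) (A (κ i))) +
      proj3 (e 0) (e 1) (e 2) (x.2 i) = 0 := fun i => congrFun (congrArg Prod.snd hx) i
  have ha : ∀ k, ⟪A (κ (idxI k)), κ (idxJ k)⟫_ℝ = 0 := by
    intro k
    have h1 : ⟪A (κ (idxI k)), κ (idxJ k)⟫_ℝ + 0 = 0 := congrFun (congrArg Prod.fst hx) k
    linarith
  have hβ : ∀ i, proj3 (e 0) (e 1) (e 2) (x.2 i) = 0 := by
    intro i
    have h1 := congrArg (proj3 (e 0) (e 1) (e 2)) (hb i)
    rw [proj3_add, proj3_sub, proj3_proj3 T, proj3_proj3 T, sub_self, zero_add] at h1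
    rw [h1]
    simp [proj3]
  have hrange : ∀ i, A (κ i) = proj3 (e 0) (e 1) (e 2) (A (κ i)) := by
    intro i
    have h1 := hb i
    rw [hβ, add_zero] at h1
    exact sub_eq_zero.1 h1
  have hall : ∀ i j, ⟪A (κ i), κ j⟫_ℝ = 0 := by
    have hs : ∀ i j, ⟪A (κ i), κ j⟫_ℝ = ⟪A (κ j), κ i⟫_ℝ := by
      intro i j
      rw [hsymm, real_inner_comm]
    have c0 := ha 0
    have c1 := ha 1
    have c2 := ha 2
    have c3 := ha 3
    have c4 := ha 4
    have c5 := ha 5
    simp only [idxI, idxJ] at c0 c1 c2 c3 c4 c5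
    simp at c0 c1 c2 c3 c4 c5
    intro i j
    fin_cases i <;> fin_cases j
    · exact c0
    · exact c1
    · exact c2
    · exact (hs 1 0).trans c1
    · exact c3
    · exact c4
    · exact (hs 2 0).trans c2
    · exact (hs 2 1).trans c4
    · exact c5
  refine ⟨fun i => ?_, hβ⟩
  have h1 : ∀ j, ⟪fst3 e j, A (κ i)⟫_ℝ = 0 := by
    intro j
    have h2 : ⟪x.2 j, A (κ i)⟫_ℝ = 0 := by
      rw [hrange i, inner_proj3_symm, hβ, inner_zero_left]
    have h3 : ⟪κ j, A (κ i)⟫_ℝ = 0 := by rw [real_inner_comm]; exact hall i j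
    rw [hκ] at h3
    simp only at h3
    rw [inner_add_left] at h3
    have h4 : ⟪x.2 j, A (fst3 e i + x.2 i)⟫_ℝ = 0 := h2
    change ⟪fst3 e j, A (fst3 e i + x.2 i)⟫_ℝ = 0
    linarith
  change A (κ i) = 0
  rw [hrange i, proj3_eq_sum]
  apply Finset.sum_eq_zero
  intro j _
  rw [h1 j, zero_smul]

end Pool.Agent.HermanCaustic
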