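import Mathlib
import Pool.Agent.HermanCaustic.Stability
import Pool.Agent.HermanCaustic.DegreeZero
import Pool.Agent.SmoothDegree.Transfer

/-!
# Every gradient field close to the base field has a corank three point as in the model
-/

set_option autoImplicit false
set_option linter.unusedSectionVars false

namespace Pool.Agent.HermanCaustic

open Metric Set Filter Topology Asymptotics
open scoped InnerProductSpace ContDiff
open Pool.Agent.SmoothDegree

variable {E : Type*} [NormedAddCommGroup E] [InnerProductSpace ℝ E] {e : Fin 6 → E}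

/-- The shear `z ↦ ∑ ⟪eᵢ, z⟫ βᵢ`. -/
noncomputable def shearM (e : Fin 6 → E) (β : Fin 3 → E) : E →L[ℝ] E :=
  ∑ i : Fin 3, (innerSL ℝ (fst3 e i)).smulRight (β i)

/-- The adjoint shear `w ↦ ∑ ⟪βᵢ, w⟫ eᵢ`. -/
noncomputable def shearL (e : Fin 6 → E) (β : Fin 3 → E) : E →L[ℝ] E :=
  ∑ i : Fin 3, (innerSL ℝ (β i)).smulRight (fst3 e i)

theorem shearM_apply (e : Fin 6 → E) (β : Fin 3 → E) (z : E) :
    shearM e β z = ∑ i : Fin 3, ⟪fst3 e i, z⟫_ℝ • β i := by
  simp [shearM, Fin.sum_univ_three]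

theorem shearL_apply (e : Fin 6 → E) (β : Fin 3 → E) (w : E) :
    shearL e β w = ∑ i : Fin 3, ⟪β i, w⟫_ℝ • fst3 e i := by
  simp [shearL, Fin.sum_univ_three]

theorem norm_shearM_le (he : Orthonormal ℝ e) {β : Fin 3 → E} {r : ℝ} (hβ : ∀ i, ‖β i‖ ≤ r) :
    ‖shearM e β‖ ≤ 3 * r := by
  unfold shearM
  calc ‖∑ i : Fin 3, (innerSL ℝ (fst3 e i)).smulRight (β i)‖
      ≤ ∑ i : Fin 3, ‖(innerSL ℝ (fst3 e i)).smulRight (β i)‖ := norm_sum_le _ _
    _ ≤ ∑ _i : Fin 3, r := by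
        apply Finset.sum_le_sum
        intro i _
        rw [ContinuousLinearMap.norm_smulRight_apply, innerSL_apply_norm, norm_fst3 he, one_mul]
        exact hβ i
    _ = 3 * r := by simp

theorem norm_shearL_le (he : Orthonormal ℝ e) {β : Fin 3 → E} {r : ℝ} (hβ : ∀ i, ‖β i‖ ≤ r) :
    ‖shearL e β‖ ≤ 3 * r := by
  unfold shearL
  calc ‖∑ i : Fin 3, (innerSL ℝ (β i)).smulRight (fst3 e i)‖
      ≤ ∑ i : Fin 3, ‖(innerSL ℝ (β i)).smulRight (fst3 e i)‖ := norm_sum_le _ _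
    _ ≤ ∑ _i : Fin 3, r := by
        apply Finset.sum_le_sum
        intro i _
        rw [ContinuousLinearMap.norm_smulRight_apply, innerSL_apply_norm, norm_fst3 he, mul_one]
        exact hβ i
    _ = 3 * r := by simp

theorem shear_adjoint (e : Fin 6 → E) (β : Fin 3 → E) (w z : E) :
    ⟪shearL e β w, z⟫_ℝ = ⟪w, shearM e β z⟫_ℝ := by
  rw [shearL_apply, shearM_apply, sum_inner, inner_sum]
  apply Finset.sum_congr rfl
  intro i _
  rw [inner_smul_left, inner_smul_right, RCLike.conj_to_real, real_inner_comm (β i) w]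
  ring

theorem exists_equiv_of_det [FiniteDimensional ℝ E] (A : E →L[ℝ] E) (hA : A.det ≠ 0) :
    ∃ A' : E ≃L[ℝ] E, (A' : E →L[ℝ] E) = A := by
  have hinj := inj_of_det_ne_zero _ hA
  have hker : LinearMap.ker (A : E →ₗ[ℝ] E) = ⊥ := by
    rw [LinearMap.ker_eq_bot']
    exact hinj
  refine ⟨(LinearEquiv.ofInjectiveEndo (A : E →ₗ[ℝ] E)
    (LinearMap.ker_eq_bot.1 hker)).toContinuousLinearEquiv, ?_⟩
  ext v
  rfl

theorem stability [FiniteDimensional ℝ E] (he : Orthonormal ℝ e) {δ : ℝ} (hδ : 0 < δ)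
    (hδ1 : δ ≤ 1) : ∃ ε > (0:ℝ), ∀ F : E → E, ContDiff ℝ 2 F →
      (∀ x u v, ⟪fderiv ℝ F x u, v⟫_ℝ = ⟪u, fderiv ℝ F x v⟫_ℝ) →
      (∀ x, ‖fderiv ℝ F x - fderiv ℝ (baseGrad e) x‖ ≤ ε) →
      (∀ x, ‖fderiv ℝ (fderiv ℝ F) x - Bil e‖ ≤ ε) →
      ∃ (p : E) (M L : E ≃L[ℝ] E) (A : E →L[ℝ] E) (B : E →L[ℝ] E →L[ℝ] E),
        0 < (L : E →L[ℝ] E).det * (M : E →L[ℝ] E).det ∧ (∀ w z, ⟪L w, z⟫_ℝ = ⟪w, M z⟫_ℝ) ∧
        (fderiv ℝ F p).det = 0 ∧
        CorankData (e 0) (e 1) (e 2) δ (fun z => L (F (p + M z))) A B := by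
  have T := triple_of_orthonormal he
  set b₀ : ℝ := ‖Bil e‖ + 1 with hb₀
  have hBn : 0 ≤ ‖Bil e‖ := (Bil e).opNorm_nonneg
  have hb₀1 : 1 ≤ b₀ := by linarith
  set r : ℝ := δ / (100 * b₀) with hr
  have hrpos : 0 < r := by positivity
  have hrb : r * b₀ = δ / 100 := by rw [hr]; field_simp
  have hr1 : r ≤ δ / 100 := by nlinarith
  have hnt : Nontrivial (Par E) := by
    refine ⟨⟨(fun _ => 1, 0), 0, ?_⟩⟩
    intro h
    have := congrFun (congrArg Prod.fst h) 0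
    simp at this
  set Ψ := psi e (fderiv ℝ (baseGrad e)) with hΨ
  have hΨc : ContDiff ℝ 1 Ψ := contDiff_psi e (contDiff_fderiv_baseGrad e)
  have hstrict : HasStrictFDerivAt Ψ (fderiv ℝ Ψ 0) 0 :=
    hΨc.contDiffAt.hasStrictFDerivAt one_ne_zero
  obtain ⟨η, hη, hsol⟩ := stable_zero hstrict (fderiv_psi_injective he) (psi_base_zero he) hrpos
  refine ⟨min (η / 28) (δ / 100), by positivity, fun F hF hsymm h1 h2 => ?_⟩
  set ε : ℝ := min (η / 28) (δ / 100) with hε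
  have hε0 : 0 < ε := by positivity
  have hεη : 28 * ε ≤ η := by
    have : ε ≤ η / 28 := min_le_left _ _
    linarith
  have hεδ : ε ≤ δ / 100 := min_le_right _ _
  have hF1 : ContDiff ℝ 1 (fderiv ℝ F) := hF.fderiv_right (by norm_num)
  set HG : E → (E →L[ℝ] E) := fun x => fderiv ℝ F x - fderiv ℝ (baseGrad e) x with hHG
  have hHGd : ∀ x, HasFDerivAt HG (fderiv ℝ (fderiv ℝ F) x - Bil e) x := by
    intro x
    have a1 : HasFDerivAt (fderiv ℝ F) (fderiv ℝ (fderiv ℝ F) x) x :=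
      (hF1.differentiable one_ne_zero x).hasFDerivAt
    have a2 : HasFDerivAt (fderiv ℝ (baseGrad e)) (Bil e) x := by
      have := ((contDiff_fderiv_baseGrad e (n := 1)).differentiable one_ne_zero x).hasFDerivAt
      rwa [fderiv_fderiv_baseGrad] at this
    exact a1.sub a2
  have hHGL : ∀ z w, ‖HG z - HG w‖ ≤ ε * ‖z - w‖ := by
    intro z w
    exact convex_univ.norm_image_sub_le_of_norm_hasFDerivWithin_le
      (fun x _ => (hHGd x).hasFDerivWithinAt) (fun x _ => h2 x) (mem_univ w) (mem_univ z)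
  obtain ⟨hLip, hzero⟩ := psiLin_lipschitz he hε0.le h1 hHGL
  obtain ⟨x, hxr, hx0⟩ := hsol (psiLin e HG)
    (fun x hx y hy => (hLip x hx y hy).trans
      (mul_le_mul_of_nonneg_right hεη (norm_nonneg _)))
    (hzero.trans (by linarith))
  have hpsi : psi e (fderiv ℝ F) x = 0 := by
    have h3 : fderiv ℝ F = fun z => fderiv ℝ (baseGrad e) z + HG z := by
      funext z
      simp only [hHG]
      abel
    rw [h3]
    unfold psi
    rw [psiLin_add]
    rw [← hx0, hΨ]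
    unfold psi
    abel
  set p : E := pt e x.1 with hp
  set β : Fin 3 → E := x.2 with hβ
  have hβr : ∀ i, ‖β i‖ ≤ r := fun i => (norm_le_pi_norm β i).trans ((norm_snd_le x).trans hxr)
  have hpr : ‖p‖ ≤ 6 * r :=
    (norm_pt_le he x.1).trans (mul_le_mul_of_nonneg_left ((norm_fst_le x).trans hxr) (by norm_num))
  obtain ⟨hker, hβ0⟩ := kernel_of_psi_zero he (H := fderiv ℝ F) (x := x) (hsymm _) hpsi
  rw [← hp, ← hβ] at hker
  rw [← hβ] at hβ0
  -- the shears
  set Mc : E →L[ℝ] E := 1 + shearM e β with hMc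
  set Lc : E →L[ℝ] E := 1 + shearL e β with hLc
  have hNM : ‖shearM e β‖ ≤ 3 * r := norm_shearM_le he hβr
  have hNL : ‖shearL e β‖ ≤ 3 * r := norm_shearL_le he hβr
  have hMdet : 0 < Mc.det := det_one_add_pos _ (by linarith)
  have hLdet : 0 < Lc.det := det_one_add_pos _ (by linarith)
  obtain ⟨M, hM⟩ := exists_equiv_of_det Mc hMdet.ne'
  obtain ⟨L, hL⟩ := exists_equiv_of_det Lc hLdet.ne'
  have hMa : ∀ z, M z = z + shearM e β z := by
    intro z
    have : M z = (M : E →L[ℝ] E) z := rfl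
    rw [this, hM]; rfl
  have hLa : ∀ z, L z = z + shearL e β z := by
    intro z
    have : L z = (L : E →L[ℝ] E) z := rfl
    rw [this, hL]; rfl
  have hadj : ∀ w z, ⟪L w, z⟫_ℝ = ⟪w, M z⟫_ℝ := by
    intro w z
    rw [hLa, hMa, inner_add_left, inner_add_right, shear_adjoint]
  -- kernel
  have hβinner : ∀ i j, ⟪fst3 e i, β j⟫_ℝ = 0 := by
    intro i j
    rw [← proj3_fst3 he i, ← inner_proj3_symm, hβ0, inner_zero_right]
  have hMproj : ∀ z, fderiv ℝ F p (M (proj3 (e 0) (e 1) (e 2) z)) = 0 := by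
    intro z
    have h3 : M (proj3 (e 0) (e 1) (e 2) z) = ∑ i : Fin 3, ⟪fst3 e i, z⟫_ℝ • (fst3 e i + β i) := by
      rw [hMa, shearM_apply]
      simp_rw [smul_add]
      rw [Finset.sum_add_distrib, ← proj3_eq_sum]
      congr 1
      apply Finset.sum_congr rfl
      intro i _
      rw [inner_proj3_symm, proj3_fst3 he]
    rw [h3, map_sum]
    apply Finset.sum_eq_zero
    intro i _
    rw [map_smul, hker, smul_zero]
  have hMorth : ∀ z, M (z - proj3 (e 0) (e 1) (e 2) z) = z - proj3 (e 0) (e 1) (e 2) z := by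
    intro z
    rw [hMa, shearM_apply]
    rw [Finset.sum_eq_zero, add_zero]
    intro i _
    have : ⟪fst3 e i, z - proj3 (e 0) (e 1) (e 2) z⟫_ℝ = 0 := by
      rw [← proj3_fst3 he i, ← inner_proj3_symm, proj3_sub, proj3_proj3 T, sub_self,
        inner_zero_right]
    rw [this, zero_smul]
  set A : E →L[ℝ] E := Lc.comp ((fderiv ℝ F p).comp Mc) with hA
  set D2 := fderiv ℝ (fderiv ℝ F) p with hD2
  set B : E →L[ℝ] E →L[ℝ] E :=
    ((ContinuousLinearMap.compL ℝ E E E) Lc).comp (D2.bilinearComp Mc Mc) with hB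
  have hMc' : ∀ z, Mc z = M z := fun z => by rw [← hM]; rfl
  have hLc' : ∀ z, Lc z = L z := fun z => by rw [← hL]; rfl
  have hAa : ∀ z, A z = L (fderiv ℝ F p (M z)) := by
    intro z
    simp only [hA, ContinuousLinearMap.comp_apply, hMc', hLc']
  have hBa : ∀ u v, B u v = L (D2 (M u) (M v)) := by
    intro u v
    simp only [hB, ContinuousLinearMap.comp_apply, ContinuousLinearMap.compL_apply,
      ContinuousLinearMap.bilinearComp_apply, hMc', hLc']
  have hDFn : ∀ v, ‖fderiv ℝ F p v - (v - proj3 (e 0) (e 1) (e 2) v)‖ ≤ δ / 10 * ‖v‖ := by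
    intro v
    have h3 : fderiv ℝ F p v - (v - proj3 (e 0) (e 1) (e 2) v) = HG p v + Bil e p v := by
      simp only [hHG, sub_apply, fderiv_baseGrad_apply]
      abel
    rw [h3]
    calc ‖HG p v + Bil e p v‖ ≤ ‖HG p v‖ + ‖Bil e p v‖ := norm_add_le _ _
      _ ≤ ε * ‖v‖ + ‖Bil e‖ * ‖p‖ * ‖v‖ :=
          add_le_add (((HG p).le_opNorm v).trans
            (mul_le_mul_of_nonneg_right (h1 p) (norm_nonneg _))) (norm_bilin_le _ _ _)
      _ ≤ δ / 100 * ‖v‖ + b₀ * (6 * r) * ‖v‖ := by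
          apply add_le_add (mul_le_mul_of_nonneg_right hεδ (norm_nonneg _))
          apply mul_le_mul_of_nonneg_right _ (norm_nonneg _)
          exact mul_le_mul (by linarith) hpr (norm_nonneg _) (by linarith)
      _ = (δ / 100 + 6 * (r * b₀)) * ‖v‖ := by ring
      _ = (7 * δ / 100) * ‖v‖ := by rw [hrb]; ring
      _ ≤ δ / 10 * ‖v‖ := by
          apply mul_le_mul_of_nonneg_right _ (norm_nonneg _)
          linarith
  refine ⟨p, M, L, A, B, ?_, hadj, ?_, ?_, ?_, ?_, ?_, ?_⟩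
  · rw [hM, hL]; positivity
  · -- the point is critical
    by_contra hne
    have h3 := inj_of_det_ne_zero _ hne _ (hker 0)
    have h4 : ⟪fst3 e 0, fst3 e 0 + β 0⟫_ℝ = 0 := by rw [h3, inner_zero_right]
    rw [inner_add_right, hβinner, fst3_inner he] at h4
    simp at h4
  · -- Taylor expansion
    have h3 := taylor_two hF p
    have h4 : Tendsto (fun h : E => M h) (𝓝 0) (𝓝 0) := by
      have := M.continuous.tendsto 0
      simpa using this
    have h5 := h3.comp_tendsto h4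
    have h6 : (fun h : E => ‖M h‖ ^ 2) =O[𝓝 0] fun h : E => ‖h‖ ^ 2 := by
      apply IsBigO.pow
      apply IsBigO.norm_norm
      exact (M : E →L[ℝ] E).isBigO_id _
    have h7 := h5.trans_isBigO h6
    have h8 : (fun h : E => L (F (p + M h) - F p - fderiv ℝ F p (M h) -
        (1 / 2 : ℝ) • fderiv ℝ (fderiv ℝ F) p (M h) (M h))) =o[𝓝 0] fun h : E => ‖h‖ ^ 2 :=
      ((L : E →L[ℝ] E).isBigO_comp _ _).trans_isLittleO h7
    refine h8.congr_left ?_
    intro h
    simp only [hAa, hBa, map_zero, add_zero, map_sub, map_smul, hD2]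
  · intro z
    rw [hAa, hMproj, map_zero]
  · intro z
    rw [hAa, proj3_eq_sum]
    apply Finset.sum_eq_zero
    intro i _
    have h3 : ⟪fst3 e i, L (fderiv ℝ F p (M z))⟫_ℝ = 0 := by
      have h4 : M (fst3 e i) = fst3 e i + β i := by
        rw [hMa, shearM_apply]
        congr 1
        rw [Finset.sum_eq_single i]
        · rw [fst3_inner he]; simp
        · intro j _ hj
          rw [fst3_inner he, if_neg hj, zero_smul]
        · intro h; exact absurd (Finset.mem_univ i) h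
      rw [real_inner_comm, hadj, h4, hsymm, hker, inner_zero_right]
    rw [h3, zero_smul]
  · intro z
    set b := z - proj3 (e 0) (e 1) (e 2) z with hb
    rw [hAa, hMorth, ← hb]
    have hbp : proj3 (e 0) (e 1) (e 2) b = 0 := by
      rw [hb, proj3_sub, proj3_proj3 T, sub_self]
    have h3 := hDFn b
    rw [hbp, sub_zero] at h3
    have h4 : ‖fderiv ℝ F p b‖ ≤ 2 * ‖b‖ := by
      calc ‖fderiv ℝ F p b‖ = ‖(fderiv ℝ F p b - b) + b‖ := by rw [sub_add_cancel]
        _ ≤ ‖fderiv ℝ F p b - b‖ + ‖b‖ := norm_add_le _ _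
        _ ≤ δ / 10 * ‖b‖ + ‖b‖ := by linarith
        _ ≤ 2 * ‖b‖ := by nlinarith [norm_nonneg b]
    have h5 : L (fderiv ℝ F p b) - b = (fderiv ℝ F p b - b) + shearL e β (fderiv ℝ F p b) := by
      rw [hLa]; abel
    rw [h5]
    calc ‖(fderiv ℝ F p b - b) + shearL e β (fderiv ℝ F p b)‖
        ≤ ‖fderiv ℝ F p b - b‖ + ‖shearL e β (fderiv ℝ F p b)‖ := norm_add_le _ _
      _ ≤ δ / 10 * ‖b‖ + (3 * r) * (2 * ‖b‖) := by
          apply add_le_add h3
          exact ((shearL e β).le_opNorm _).trans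
            (mul_le_mul hNL h4 (norm_nonneg _) (by positivity))
      _ ≤ δ * ‖b‖ := by nlinarith [norm_nonneg b]
  · intro z
    set a := proj3 (e 0) (e 1) (e 2) z with ha
    have h3 : quad3 (e 0) (e 1) (e 2) z =
        proj3 (e 0) (e 1) (e 2) ((1 / 2 : ℝ) • Bil e a a) := (half_Bil_proj3 he z).symm
    rw [h3, ← proj3_sub, ← smul_sub, hBa]
    refine (norm_proj3_le T _).trans ?_
    rw [norm_smul]
    have hMa2 : ‖M a‖ ≤ 2 * ‖a‖ := by
      rw [hMa]
      calc ‖a + shearM e β a‖ ≤ ‖a‖ + ‖shearM e β a‖ := norm_add_le _ _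
        _ ≤ ‖a‖ + 3 * r * ‖a‖ := add_le_add le_rfl (((shearM e β).le_opNorm _).trans
            (mul_le_mul_of_nonneg_right hNM (norm_nonneg _)))
        _ ≤ 2 * ‖a‖ := by nlinarith [norm_nonneg a]
    have hMad : ‖M a - a‖ ≤ 3 * r * ‖a‖ := by
      rw [hMa, add_sub_cancel_left]
      exact ((shearM e β).le_opNorm _).trans (mul_le_mul_of_nonneg_right hNM (norm_nonneg _))
    set w := D2 (M a) (M a) with hw
    have hD2B : ‖D2 - Bil e‖ ≤ ε := h2 p
    have hw1 : ‖w - Bil e (M a) (M a)‖ ≤ ε * (4 * ‖a‖ ^ 2) := by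
      have h4 : w - Bil e (M a) (M a) = (D2 - Bil e) (M a) (M a) := by
        simp [hw, sub_apply]
      rw [h4]
      calc ‖(D2 - Bil e) (M a) (M a)‖ ≤ ‖D2 - Bil e‖ * ‖M a‖ * ‖M a‖ := norm_bilin_le _ _ _
        _ = ‖D2 - Bil e‖ * (‖M a‖ * ‖M a‖) := by ring
        _ ≤ ε * ((2 * ‖a‖) * (2 * ‖a‖)) :=
            mul_le_mul hD2B (mul_le_mul hMa2 hMa2 (norm_nonneg _) (by positivity)) (by positivity)
              hε0.le
        _ = ε * (4 * ‖a‖ ^ 2) := by ring
    have hw2 : ‖Bil e (M a) (M a) - Bil e a a‖ ≤ b₀ * (9 * r * ‖a‖ ^ 2) := by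
      have h4 : Bil e (M a) (M a) - Bil e a a = Bil e (M a - a) (M a) + Bil e a (M a - a) := by
        simp only [map_sub, sub_apply]; abel
      rw [h4]
      calc ‖Bil e (M a - a) (M a) + Bil e a (M a - a)‖
          ≤ ‖Bil e (M a - a) (M a)‖ + ‖Bil e a (M a - a)‖ := norm_add_le _ _
        _ ≤ ‖Bil e‖ * ‖M a - a‖ * ‖M a‖ + ‖Bil e‖ * ‖a‖ * ‖M a - a‖ :=
            add_le_add (norm_bilin_le _ _ _) (norm_bilin_le _ _ _)
        _ = ‖Bil e‖ * (‖M a - a‖ * (‖M a‖ + ‖a‖)) := by ring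
        _ ≤ b₀ * ((3 * r * ‖a‖) * (3 * ‖a‖)) := by
            apply mul_le_mul (by linarith) _ (by positivity) (by linarith)
            apply mul_le_mul hMad (by linarith) (by positivity) (by positivity)
        _ = b₀ * (9 * r * ‖a‖ ^ 2) := by ring
    have hBaa : ‖Bil e a a‖ ≤ b₀ * ‖a‖ ^ 2 := by
      have h4 := norm_bilin_le (Bil e) a a
      nlinarith [sq_nonneg ‖a‖]
    have hwn : ‖w‖ ≤ 2 * b₀ * ‖a‖ ^ 2 := by
      have h4 : w = (w - Bil e (M a) (M a)) + (Bil e (M a) (M a) - Bil e a a) + Bil e a a := by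
        abel
      have h5 : ‖w‖ ≤ ‖w - Bil e (M a) (M a)‖ + ‖Bil e (M a) (M a) - Bil e a a‖ +
          ‖Bil e a a‖ := by
        calc ‖w‖ = ‖(w - Bil e (M a) (M a)) + (Bil e (M a) (M a) - Bil e a a) + Bil e a a‖ := by
              rw [← h4]
          _ ≤ _ := norm_add₃_le
      have h6 : b₀ * (9 * r * ‖a‖ ^ 2) = 9 * (δ / 100) * ‖a‖ ^ 2 := by
        rw [← hrb]; ring
      nlinarith [sq_nonneg ‖a‖]
    have hsh : ‖shearL e β w‖ ≤ 3 * r * (2 * b₀ * ‖a‖ ^ 2) :=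
      ((shearL e β).le_opNorm _).trans (mul_le_mul hNL hwn (norm_nonneg _) (by positivity))
    have h7 : L w - Bil e a a = (w - Bil e (M a) (M a)) + (Bil e (M a) (M a) - Bil e a a) +
        shearL e β w := by
      rw [hLa]; abel
    have h8 : ‖L w - Bil e a a‖ ≤ δ * ‖a‖ ^ 2 := by
      rw [h7]
      refine norm_add₃_le.trans ?_
      have h6 : b₀ * (9 * r * ‖a‖ ^ 2) = 9 * (δ / 100) * ‖a‖ ^ 2 := by
        rw [← hrb]; ring
      have h9 : 3 * r * (2 * b₀ * ‖a‖ ^ 2) = 6 * (δ / 100) * ‖a‖ ^ 2 := by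
        rw [← hrb]; ring
      nlinarith [sq_nonneg ‖a‖]
    have h10 : ‖(1 / 2 : ℝ)‖ = 1 / 2 := by norm_num
    rw [h10]
    nlinarith [norm_nonneg (L w - Bil e a a)]

end Pool.Agent.HermanCaustic
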