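import Mathlib

/-!
# The gradient map of a smooth function: smoothness, symmetry, norms of derivatives
-/

set_option autoImplicit false

namespace Pool.Agent.HermanCaustic

open Metric Set Filter Topology
open scoped InnerProductSpace ContDiff

variable {E : Type*} [NormedAddCommGroup E] [InnerProductSpace ℝ E] [CompleteSpace E]

/-- The Riesz isometry, as a real linear isometry equivalence. -/
noncomputable def dualIso : E ≃ₗᵢ[ℝ] (StrongDual ℝ E) where
  toFun := InnerProductSpace.toDual ℝ E
  invFun := (InnerProductSpace.toDual ℝ E).symm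
  left_inv := (InnerProductSpace.toDual ℝ E).left_inv
  right_inv := (InnerProductSpace.toDual ℝ E).right_inv
  map_add' := map_add _
  map_smul' := by intro c x; simp
  norm_map' := (InnerProductSpace.toDual ℝ E).norm_map

theorem gradient_eq_comp (f : E → ℝ) : gradient f = fun x => dualIso.symm (fderiv ℝ f x) := rfl

theorem inner_dualIso_symm (l : StrongDual ℝ E) (v : E) : ⟪dualIso.symm l, v⟫_ℝ = l v :=
  InnerProductSpace.toDual_symm_apply

theorem hasFDerivAt_gradient {f : E → ℝ} (hf : Differentiable ℝ f) (x : E) :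
    HasFDerivAt f (innerSL ℝ (gradient f x)) x := by
  have h : innerSL ℝ (gradient f x) = fderiv ℝ f x := by
    ext v
    rw [innerSL_apply_apply, gradient_eq_comp, inner_dualIso_symm]
  rw [h]
  exact (hf x).hasFDerivAt

theorem contDiff_gradient {f : E → ℝ} (hf : ContDiff ℝ ∞ f) : ContDiff ℝ ∞ (gradient f) := by
  rw [gradient_eq_comp]
  exact (dualIso (E := E)).symm.contDiff.comp (hf.fderiv_right (m := ∞) (by simp))

theorem inner_fderiv_gradient {f : E → ℝ} (hf : ContDiff ℝ ∞ f) (x u v : E) :
    ⟪fderiv ℝ (gradient f) x u, v⟫_ℝ = fderiv ℝ (fderiv ℝ f) x u v := by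
  have h1 : Differentiable ℝ (fderiv ℝ f) :=
    (hf.fderiv_right (m := ∞) (by simp)).differentiable (by simp)
  have h2 : HasFDerivAt (gradient f)
      (((dualIso (E := E)).symm.toContinuousLinearEquiv : StrongDual ℝ E →L[ℝ] E).comp
        (fderiv ℝ (fderiv ℝ f) x)) x := by
    rw [gradient_eq_comp]
    exact ((dualIso (E := E)).symm.toContinuousLinearEquiv :
      StrongDual ℝ E →L[ℝ] E).hasFDerivAt.comp x (h1 x).hasFDerivAt
  rw [h2.fderiv]
  exact inner_dualIso_symm _ _

theorem fderiv_gradient_symm {f : E → ℝ} (hf : ContDiff ℝ ∞ f) (x u v : E) :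
    ⟪fderiv ℝ (gradient f) x u, v⟫_ℝ = ⟪u, fderiv ℝ (gradient f) x v⟫_ℝ := by
  rw [← real_inner_comm u, inner_fderiv_gradient hf, inner_fderiv_gradient hf]
  have h : IsSymmSndFDerivAt ℝ f x := hf.contDiffAt.isSymmSndFDerivAt
    (by rw [minSmoothness_of_isRCLikeNormedField]; exact ENat.LEInfty.out)
  exact h u v

theorem gradient_sub {f g : E → ℝ} (hf : Differentiable ℝ f) (hg : Differentiable ℝ g) :
    gradient (fun y => f y - g y) = fun x => gradient f x - gradient g x := by
  rw [gradient_eq_comp, gradient_eq_comp, gradient_eq_comp]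
  funext x
  rw [← map_sub]
  congr 1
  exact fderiv_fun_sub (hf x) (hg x)

theorem norm_iteratedFDeriv_gradient (h : E → ℝ) (k : ℕ) (x : E) :
    ‖iteratedFDeriv ℝ k (gradient h) x‖ = ‖iteratedFDeriv ℝ (k + 1) h x‖ := by
  have h1 : gradient h = (dualIso (E := E)).symm ∘ fderiv ℝ h := rfl
  rw [h1, LinearIsometryEquiv.norm_iteratedFDeriv_comp_left, norm_iteratedFDeriv_fderiv]

theorem norm_fderiv_gradient_sub {f g : E → ℝ} (hf : ContDiff ℝ ∞ f) (hg : ContDiff ℝ ∞ g)
    (x : E) : ‖fderiv ℝ (gradient f) x - fderiv ℝ (gradient g) x‖ =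
      ‖iteratedFDeriv ℝ 2 (fun y => f y - g y) x‖ := by
  have h1 : fderiv ℝ (gradient f) x - fderiv ℝ (gradient g) x =
      fderiv ℝ (gradient (fun y => f y - g y)) x := by
    rw [gradient_sub (hf.differentiable (by simp)) (hg.differentiable (by simp)), fderiv_fun_sub]
    · exact (contDiff_gradient hf).differentiable (by simp) x
    · exact (contDiff_gradient hg).differentiable (by simp) x
  rw [h1, ← norm_iteratedFDeriv_one, norm_iteratedFDeriv_gradient]

theorem norm_fderiv_fderiv_gradient_sub {f g : E → ℝ} (hf : ContDiff ℝ ∞ f)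
    (hg : ContDiff ℝ ∞ g) (x : E) :
    ‖fderiv ℝ (fderiv ℝ (gradient f)) x - fderiv ℝ (fderiv ℝ (gradient g)) x‖ =
      ‖iteratedFDeriv ℝ 3 (fun y => f y - g y) x‖ := by
  have hf1 := contDiff_gradient hf
  have hg1 := contDiff_gradient hg
  have hf2 : ContDiff ℝ ∞ (fderiv ℝ (gradient f)) := hf1.fderiv_right (by simp)
  have hg2 : ContDiff ℝ ∞ (fderiv ℝ (gradient g)) := hg1.fderiv_right (by simp)
  have h1 : fderiv ℝ (fderiv ℝ (gradient f)) x - fderiv ℝ (fderiv ℝ (gradient g)) x =
      fderiv ℝ (fderiv ℝ (gradient (fun y => f y - g y))) x := by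
    have h2 : fderiv ℝ (gradient (fun y => f y - g y)) =
        fun x => fderiv ℝ (gradient f) x - fderiv ℝ (gradient g) x := by
      funext z
      rw [gradient_sub (hf.differentiable (by simp)) (hg.differentiable (by simp)),
        fderiv_fun_sub]
      · exact hf1.differentiable (by simp) z
      · exact hg1.differentiable (by simp) z
    rw [h2, fderiv_fun_sub]
    · exact hf2.differentiable (by simp) x
    · exact hg2.differentiable (by simp) x
  rw [h1, ← norm_iteratedFDeriv_one, norm_iteratedFDeriv_fderiv, norm_iteratedFDeriv_gradient]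

end Pool.Agent.HermanCaustic
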