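import Mathlib
import Pool.Agent.HermanCaustic.Corank
import Pool.Agent.HermanCaustic.DegreeZero
import Pool.Agent.HermanCaustic.GradientMap
import Pool.Agent.SmoothDegree.Transfer
import Pool.Agent.SmoothDegree.LocalDegree

/-!
# Every smooth function close to the base function has a bad critical point of its gradient map
-/

set_option autoImplicit false

namespace Pool.Agent.HermanCaustic

open Metric Set Filter Topology
open Pool.Agent.SmoothDegree
open scoped InnerProductSpace ContDiff

variable {E : Type*} [NormedAddCommGroup E] [InnerProductSpace ℝ E] [FiniteDimensional ℝ E]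

theorem gradient_baseFun (e : Fin 6 → E) : gradient (baseFun e) = baseGrad e := by
  funext z
  have h := hasFDerivAt_baseFun e z
  have h2 := hasFDerivAt_gradient (E := E) (f := baseFun e)
    ((contDiff_baseFun e (n := ∞)).differentiable (by simp)) z
  have h3 := h2.unique h
  have h4 : ∀ v, ⟪gradient (baseFun e) z, v⟫_ℝ = ⟪baseGrad e z, v⟫_ℝ := fun v => by
    have := congrArg (fun l : E →L[ℝ] ℝ => l v) h3
    simpa using this
  exact ext_inner_right ℝ h4

theorem exists_bad_point {e : Fin 6 → E} (he : Orthonormal ℝ e) :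
    ∃ ε > (0:ℝ), ∀ f : E → ℝ, ContDiff ℝ ∞ f →
      (∀ x, ∀ j ≤ 3, ‖iteratedFDeriv ℝ j (fun y => f y - baseFun e y) x‖ < ε) →
      ∃ p, IsCriticalPoint (gradient f) p ∧ IsolatedInFibre (gradient f) p ∧
        HasLocalDegree (gradient f) p 0 ∧
        ∀ U ∈ 𝓝 p, gradient f '' U ∈ 𝓝 (gradient f p) := by
  have T := triple_of_orthonormal he
  obtain ⟨δ₀, hδ₀, honto⟩ := CorankData.locally_onto T
  obtain ⟨ε, hε, hstab⟩ := stability he (δ := min δ₀ (1 / 10)) (by positivity)
    ((min_le_right _ _).trans (by norm_num))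
  refine ⟨ε, hε, fun f hf hclose => ?_⟩
  have hFc : ContDiff ℝ ∞ (gradient f) := contDiff_gradient hf
  have hbase : ContDiff ℝ ∞ (baseFun e) := contDiff_baseFun e
  obtain ⟨p, M, L, A, B, hdet, hadj, hcrit, D⟩ := hstab (gradient f)
    (hFc.of_le ENat.LEInfty.out) (fderiv_gradient_symm hf)
    (fun x => by
      rw [← gradient_baseFun, norm_fderiv_gradient_sub hf hbase]
      exact (hclose x 2 (by norm_num)).le)
    (fun x => by
      rw [← fderiv_fderiv_baseGrad e x, ← gradient_baseFun,
        norm_fderiv_fderiv_gradient_sub hf hbase]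
      exact (hclose x 3 (by norm_num)).le)
  have hF1 : ContDiff ℝ 1 (gradient f) := hFc.of_le ENat.LEInfty.out
  have hG1 : ContDiff ℝ 1 (fun z => L (gradient f (p + M z))) :=
    L.contDiff.comp (hF1.comp (contDiff_const.add M.contDiff))
  have hG : ∀ z, HasFDerivAt (fun z => f (p + M z))
      (innerSL ℝ ((fun z => L (gradient f (p + M z))) z)) z := by
    intro z
    have h1 : HasFDerivAt (fun z => p + M z) (M : E →L[ℝ] E) z :=
      (M : E →L[ℝ] E).hasFDerivAt.const_add p
    have h2 := (hasFDerivAt_gradient (hf.differentiable (by simp)) (p + M z)).comp z h1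
    refine h2.congr_fderiv ?_
    ext v
    simp [hadj]
  obtain ⟨hiso, hdeg⟩ := D.isolating T (min_le_right _ _) hG1
  exact ⟨p, hcrit, isolatedInFibre_transfer hiso, hasLocalDegree_transfer hF1 hdet hdeg,
    locally_onto_transfer (honto (min_le_left _ _) hG hG1 D)⟩

end Pool.Agent.HermanCaustic
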